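import Pool.Agent.H337R2.Cx3

/-!
# Line part of the archimedean bound for `8G ± 5π²/6`: nodes, stages and the comparison product

`σ ∈ {1, 3}`; line `Re t = 2n - (4-σ)/8`; `WL` is `|U Z² / P²|` on the line, where `U = ∏_{j<2n} (t-j)`,
`Z = ∏_{v<2n} (t-v-σ/4)`, `P = ∏_{k=1}^{8n} (t+k)`.
-/

open Polynomial

namespace Pool.Agent.QG.LG

noncomputable section

/-- the squares of the ordinates of the three nodes (divided by `n`) -/
def hG : ℕ → ℚ
  | 0 => 40 / 1000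
  | 1 => 900 / 1000
  | _ => 2100 / 1000

/-- multiplicities (times `N`) -/
def sG : ℕ → ℕ
  | 0 => 12
  | 1 => 20
  | _ => 28

/-- the binary exponents at the stages -/
def tG : ℕ → ℕ
  | 0 => 0
  | 1 => 83
  | 2 => 114
  | _ => 57

/-- the real part of the line -/
def cq (n σ : ℕ) : ℚ := 2 * n - (4 - σ) / 8

/-- the point `cq + i y` of the line -/
def zc (n σ : ℕ) (y : ℝ) : ℂ := ((2 * n - (4 - σ) / 8 : ℝ) : ℂ) + y * Complex.I

/-- the node polynomial `(X - c)² + h n²` -/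
def qG (n σ : ℕ) (h : ℚ) : ℚ[X] := (X - C (cq n σ)) ^ 2 + C (h * (n : ℚ) ^ 2)

/-- the factors `(c, e)` of the comparison product `∏ (1 + v/c²)^e` -/
def FXG : List (ℚ × ℕ) :=
  [(1/24, 1), (3/24, 1), (5/24, 1), (7/24, 1), (9/24, 1), (11/24, 1), (13/24, 1), (15/24, 1), (17/24, 1), (19/24, 1),
   (21/24, 1), (23/24, 1), (9/8, 3), (11/8, 3), (13/8, 3), (15/8, 3), (9/4, 36), (11/4, 36), (7/2, 72), (9/2, 72),
   (11/2, 72), (13/2, 72), (15/2, 72), (17/2, 72), (19/2, 72), (21/2, 48), (23/2, 48), (13, 96), (16, 192),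
   (22, 384), (38, 1152), (75, 2400), (150, 4800)]

/-- comparison product -/
def FXpG (v : ℝ) : ℝ := (FXG.map fun x => (1 + v / (x.1 : ℝ) ^ 2) ^ x.2).prod

/-- `|U Z² / P²|` on the line -/
def WL (n σ : ℕ) (y : ℝ) : ℝ :=
  (∏ j ∈ Finset.range (2 * n), ‖zc n σ y - (j : ℂ)‖) *
    (∏ v ∈ Finset.range (2 * n), ‖zc n σ y - ((v : ℂ) + σ / 4)‖ ^ 2) /
      ∏ k ∈ Finset.Icc 1 (8 * n), ‖zc n σ y + (k : ℂ)‖ ^ 2

/-- the exponential rate of `WL n σ 0 * n ^ (10 n)` -/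
def PhiG : ℝ := 10 * Real.log 2 + 10 - 20 * Real.log 10

end

end Pool.Agent.QG.LG
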