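import Pool.Agent.H383.QG.GDefs
import Pool.Agent.H337R2.Cx4

/-!
# Comparison of `WL` on the line with the product over all half integers
-/

open Polynomial Pool.Agent.H337R2

namespace Pool.Agent.QG.LG

noncomputable section

namespace G1Aaux

/-- the weights -/
def w (y : ℝ) (m : ℕ) : ℝ := 1 + y ^ 2 / ((m : ℝ) - 1 / 2) ^ 2

lemma w_pos (y : ℝ) (m : ℕ) : 0 < w y m := by unfold w; positivity

lemma one_le_w (y : ℝ) (m : ℕ) : 1 ≤ w y m := by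
  unfold w
  have : 0 ≤ y ^ 2 / ((m : ℝ) - 1 / 2) ^ 2 := by positivity
  linarith

lemma HM_w (y : ℝ) (M : ℕ) : HM y M = ∏ m ∈ Finset.Ioc 0 M, w y m := by
  unfold HM
  refine Finset.prod_nbij' (fun m => m + 1) (fun m => m - 1) ?_ ?_ ?_ ?_ ?_
  · intro m hm; rw [Finset.mem_range] at hm; rw [Finset.mem_Ioc]; omega
  · intro m hm; rw [Finset.mem_Ioc] at hm; rw [Finset.mem_range]; omega
  · intro m hm; simp
  · intro m hm; rw [Finset.mem_Ioc] at hm; omega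
  · intro m _
    unfold w
    push_cast
    have : ((m : ℝ) + 1 - 1 / 2) = m + 1 / 2 := by ring
    rw [this]

lemma nrm (x y r : ℝ) : ‖((x : ℂ) + y * Complex.I) - (r : ℂ)‖ ^ 2 = (x - r) ^ 2 + y ^ 2 := by
  rw [← Complex.normSq_eq_norm_sq, Complex.normSq_apply]
  simp
  ring

/-- `δ` -/
def dl (σ : ℕ) : ℝ := (4 - σ) / 8

lemma zc_eq (n σ : ℕ) (y : ℝ) : zc n σ y = ((2 * n - dl σ : ℝ) : ℂ) + y * Complex.I := by
  unfold zc dl
  push_cast
  ring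

lemma f1 (n σ : ℕ) (y : ℝ) (j : ℕ) :
    ‖zc n σ y - (j : ℂ)‖ ^ 2 = (2 * n - dl σ - j) ^ 2 + y ^ 2 := by
  have h := nrm (2 * n - dl σ) y j
  rw [zc_eq, ← h]
  push_cast
  rfl

lemma f2 (n σ : ℕ) (y : ℝ) (v : ℕ) :
    ‖zc n σ y - ((v : ℂ) + σ / 4)‖ ^ 2 = (2 * n - dl σ - (v + σ / 4)) ^ 2 + y ^ 2 := by
  have h := nrm (2 * n - dl σ) y (v + σ / 4)
  rw [zc_eq, ← h]
  push_cast
  rfl

lemma f3 (n σ : ℕ) (y : ℝ) (k : ℕ) :
    ‖zc n σ y + (k : ℂ)‖ ^ 2 = (2 * n - dl σ + k) ^ 2 + y ^ 2 := by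
  have h := nrm (2 * n - dl σ) y (-k)
  rw [zc_eq]
  have e : (2 * (n : ℝ) - dl σ + k) ^ 2 + y ^ 2 = (2 * n - dl σ - -k) ^ 2 + y ^ 2 := by ring
  rw [e, ← h]
  congr 2
  push_cast
  ring

/-- the three products -/
def B1 (n σ : ℕ) (y : ℝ) : ℝ := ∏ i ∈ Finset.range (2 * n), (((i : ℝ) + 1 - dl σ) ^ 2 + y ^ 2)

def B2 (n σ : ℕ) (y : ℝ) : ℝ := ∏ i ∈ Finset.range (2 * n), (((i : ℝ) + dl σ) ^ 2 + y ^ 2)

def B3 (n σ : ℕ) (y : ℝ) : ℝ := ∏ k ∈ Finset.Icc 1 (8 * n), ((2 * (n : ℝ) - dl σ + k) ^ 2 + y ^ 2)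

lemma WL_sq (n σ : ℕ) (y : ℝ) : WL n σ y ^ 2 = B1 n σ y * B2 n σ y ^ 2 / B3 n σ y ^ 2 := by
  have e1 : (∏ j ∈ Finset.range (2 * n), ‖zc n σ y - (j : ℂ)‖) ^ 2 = B1 n σ y := by
    rw [← Finset.prod_pow]
    simp only [f1]
    unfold B1
    rw [← Finset.prod_range_reflect]
    refine Finset.prod_congr rfl fun j hj => ?_
    rw [Finset.mem_range] at hj
    have h1 : ((2 * n - 1 - j : ℕ) : ℝ) = 2 * n - 1 - j := by
      rw [Nat.cast_sub (by omega), Nat.cast_sub (by omega)]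
      push_cast
      ring
    rw [h1]
    ring
  have e2 : (∏ v ∈ Finset.range (2 * n), ‖zc n σ y - ((v : ℂ) + σ / 4)‖ ^ 2) = B2 n σ y := by
    simp only [f2]
    unfold B2
    rw [← Finset.prod_range_reflect]
    refine Finset.prod_congr rfl fun j hj => ?_
    rw [Finset.mem_range] at hj
    have h1 : ((2 * n - 1 - j : ℕ) : ℝ) = 2 * n - 1 - j := by
      rw [Nat.cast_sub (by omega), Nat.cast_sub (by omega)]
      push_cast
      ring
    rw [h1]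
    unfold dl
    ring
  have e3 : (∏ k ∈ Finset.Icc 1 (8 * n), ‖zc n σ y + (k : ℂ)‖ ^ 2) = B3 n σ y := by
    simp only [f3]
    rfl
  unfold WL
  rw [e2, e3, div_pow, mul_pow, e1]

lemma B1_le {n σ : ℕ} (hδ : dl σ ≤ 1 / 2) (y : ℝ) :
    B1 n σ y ≤ B1 n σ 0 * ∏ m ∈ Finset.Ioc 0 (2 * n), w y m := by
  have e : ∏ m ∈ Finset.Ioc 0 (2 * n), w y m = ∏ i ∈ Finset.range (2 * n), w y (i + 1) := by
    refine Finset.prod_nbij' (fun m => m - 1) (fun m => m + 1) ?_ ?_ ?_ ?_ ?_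
    · intro m hm; rw [Finset.mem_Ioc] at hm; rw [Finset.mem_range]; omega
    · intro m hm; rw [Finset.mem_range] at hm; rw [Finset.mem_Ioc]; omega
    · intro m hm; rw [Finset.mem_Ioc] at hm; omega
    · intro m hm; simp
    · intro m hm
      rw [Finset.mem_Ioc] at hm
      rw [Nat.sub_add_cancel (by omega)]
  rw [e]
  unfold B1
  rw [← Finset.prod_mul_distrib]
  refine Finset.prod_le_prod (fun i _ => by positivity) fun i _ => ?_
  unfold w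
  push_cast
  have hi : (0 : ℝ) ≤ i := Nat.cast_nonneg i
  have h1 : (0 : ℝ) < ((i : ℝ) + 1 - 1 / 2) ^ 2 := by
    have : (0 : ℝ) < (i : ℝ) + 1 - 1 / 2 := by linarith
    positivity
  have h2 : ((i : ℝ) + 1 - 1 / 2) ^ 2 ≤ ((i : ℝ) + 1 - dl σ) ^ 2 :=
    pow_le_pow_left₀ (by linarith) (by linarith) 2
  have h3 : y ^ 2 ≤ ((i : ℝ) + 1 - dl σ) ^ 2 * (y ^ 2 / ((i : ℝ) + 1 - 1 / 2) ^ 2) := by
    rw [mul_div_assoc', le_div_iff₀ h1, mul_comm]
    exact mul_le_mul_of_nonneg_right h2 (by positivity)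
  nlinarith

lemma B2_le {n σ : ℕ} (hn : 1 ≤ n) (hδ : 1 / 8 ≤ dl σ) (y : ℝ) :
    B2 n σ y ≤ B2 n σ 0 * (64 * (1 + y ^ 2)) * ∏ m ∈ Finset.Ioc 0 (2 * n), w y m := by
  obtain ⟨k, hk⟩ : ∃ k, 2 * n = k + 1 := ⟨2 * n - 1, by omega⟩
  have e : ∏ m ∈ Finset.Ioc 0 (2 * n), w y m =
      (∏ i ∈ Finset.range k, w y (i + 1)) * w y (k + 1) := by
    rw [hk, ← Finset.prod_range_succ (fun i => w y (i + 1))]
    refine Finset.prod_nbij' (fun m => m - 1) (fun m => m + 1) ?_ ?_ ?_ ?_ ?_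
    · intro m hm; rw [Finset.mem_Ioc] at hm; rw [Finset.mem_range]; omega
    · intro m hm; rw [Finset.mem_range] at hm; rw [Finset.mem_Ioc]; omega
    · intro m hm; rw [Finset.mem_Ioc] at hm; omega
    · intro m hm; simp
    · intro m hm
      rw [Finset.mem_Ioc] at hm
      rw [Nat.sub_add_cancel (by omega)]
  have hδ0 : 0 < dl σ := by linarith
  have h0 : ∀ z : ℝ, B2 n σ z = (∏ i ∈ Finset.range k, (((i : ℝ) + 1 + dl σ) ^ 2 + z ^ 2)) *
      (dl σ ^ 2 + z ^ 2) := by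
    intro z
    unfold B2
    rw [hk, Finset.prod_range_succ']
    push_cast
    simp
  rw [e, h0 y, h0 0]
  have h1 : ∏ i ∈ Finset.range k, (((i : ℝ) + 1 + dl σ) ^ 2 + y ^ 2) ≤
      (∏ i ∈ Finset.range k, (((i : ℝ) + 1 + dl σ) ^ 2 + 0 ^ 2)) *
        ∏ i ∈ Finset.range k, w y (i + 1) := by
    rw [← Finset.prod_mul_distrib]
    refine Finset.prod_le_prod (fun i _ => by positivity) fun i _ => ?_
    unfold w
    push_cast
    have hi : (0 : ℝ) ≤ i := Nat.cast_nonneg i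
    have h1 : (0 : ℝ) < ((i : ℝ) + 1 - 1 / 2) ^ 2 := by
      have : (0 : ℝ) < (i : ℝ) + 1 - 1 / 2 := by linarith
      positivity
    have h2 : ((i : ℝ) + 1 - 1 / 2) ^ 2 ≤ ((i : ℝ) + 1 + dl σ) ^ 2 :=
      pow_le_pow_left₀ (by linarith) (by linarith) 2
    have h3 : y ^ 2 ≤ ((i : ℝ) + 1 + dl σ) ^ 2 * (y ^ 2 / ((i : ℝ) + 1 - 1 / 2) ^ 2) := by
      rw [mul_div_assoc', le_div_iff₀ h1, mul_comm]
      exact mul_le_mul_of_nonneg_right h2 (by positivity)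
    nlinarith
  have h2 : dl σ ^ 2 + y ^ 2 ≤ (dl σ ^ 2 + 0 ^ 2) * (64 * (1 + y ^ 2)) := by
    have h3 : (1 / 8 : ℝ) ^ 2 ≤ dl σ ^ 2 := pow_le_pow_left₀ (by norm_num) hδ 2
    nlinarith [sq_nonneg y]
  have h4 : (0 : ℝ) ≤ ∏ i ∈ Finset.range k, (((i : ℝ) + 1 + dl σ) ^ 2 + 0 ^ 2) :=
    Finset.prod_nonneg fun i _ => by positivity
  have h5 : (0 : ℝ) ≤ ∏ i ∈ Finset.range k, w y (i + 1) :=
    Finset.prod_nonneg fun i _ => (w_pos y _).le
  calc (∏ i ∈ Finset.range k, (((i : ℝ) + 1 + dl σ) ^ 2 + y ^ 2)) * (dl σ ^ 2 + y ^ 2)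
      ≤ ((∏ i ∈ Finset.range k, (((i : ℝ) + 1 + dl σ) ^ 2 + 0 ^ 2)) *
        ∏ i ∈ Finset.range k, w y (i + 1)) * ((dl σ ^ 2 + 0 ^ 2) * (64 * (1 + y ^ 2))) :=
        mul_le_mul h1 h2 (by positivity) (by positivity)
    _ = ((∏ i ∈ Finset.range k, (((i : ℝ) + 1 + dl σ) ^ 2 + 0 ^ 2)) *
        ∏ i ∈ Finset.range k, w y (i + 1)) * ((dl σ ^ 2 + 0 ^ 2) * (64 * (1 + y ^ 2))) * 1 := by
        ring
    _ ≤ ((∏ i ∈ Finset.range k, (((i : ℝ) + 1 + dl σ) ^ 2 + 0 ^ 2)) *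
        ∏ i ∈ Finset.range k, w y (i + 1)) * ((dl σ ^ 2 + 0 ^ 2) * (64 * (1 + y ^ 2))) *
          w y (k + 1) :=
        mul_le_mul_of_nonneg_left (one_le_w y _) (by positivity)
    _ = _ := by ring

lemma B3_ge {n σ : ℕ} (hn : 1 ≤ n) (hδ : 0 ≤ dl σ) (hδ' : dl σ ≤ 1 / 2) (y : ℝ) :
    B3 n σ 0 * ∏ m ∈ Finset.Ioc (2 * n) (10 * n), w y m ≤ B3 n σ y * (1 + y ^ 2) := by
  have hn1 : (1 : ℝ) ≤ n := by exact_mod_cast hn
  have h1 : B3 n σ 0 * ∏ k ∈ Finset.Icc 1 (8 * n), w y (2 * n + k + 1) ≤ B3 n σ y := by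
    unfold B3
    rw [← Finset.prod_mul_distrib]
    refine Finset.prod_le_prod (fun i _ => mul_nonneg (by positivity) (w_pos y _).le) fun k _ => ?_
    unfold w
    push_cast
    have hk : (0 : ℝ) ≤ k := Nat.cast_nonneg k
    have h1 : (0 : ℝ) < (2 * (n : ℝ) + k + 1 - 1 / 2) ^ 2 := by
      have : (0 : ℝ) < 2 * (n : ℝ) + k + 1 - 1 / 2 := by linarith
      positivity
    have h2 : (2 * (n : ℝ) - dl σ + k) ^ 2 ≤ (2 * (n : ℝ) + k + 1 - 1 / 2) ^ 2 :=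
      pow_le_pow_left₀ (by linarith) (by linarith) 2
    have h3 : (2 * (n : ℝ) - dl σ + k) ^ 2 * (y ^ 2 / (2 * (n : ℝ) + k + 1 - 1 / 2) ^ 2) ≤
        y ^ 2 := by
      rw [mul_div_assoc', div_le_iff₀ h1, mul_comm]
      exact mul_le_mul_of_nonneg_left h2 (by positivity)
    nlinarith
  have e : ∏ k ∈ Finset.Icc 1 (8 * n), w y (2 * n + k + 1) =
      ∏ m ∈ Finset.Ioc (2 * n + 1) (10 * n + 1), w y m := by
    refine Finset.prod_nbij' (fun k => 2 * n + k + 1) (fun m => m - (2 * n + 1)) ?_ ?_ ?_ ?_ ?_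
    · intro m hm; rw [Finset.mem_Icc] at hm; rw [Finset.mem_Ioc]; omega
    · intro m hm; rw [Finset.mem_Ioc] at hm; rw [Finset.mem_Icc]; omega
    · intro m hm; rw [Finset.mem_Icc] at hm; omega
    · intro m hm; rw [Finset.mem_Ioc] at hm; omega
    · intro m _; rfl
  rw [e] at h1
  have e2 : (∏ m ∈ Finset.Ioc (2 * n) (10 * n), w y m) * w y (10 * n + 1) =
      w y (2 * n + 1) * ∏ m ∈ Finset.Ioc (2 * n + 1) (10 * n + 1), w y m := by
    have e3 := Finset.prod_Ioc_consecutive (fun m => w y m) (show 2 * n ≤ 2 * n + 1 by omega)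
      (show 2 * n + 1 ≤ 10 * n + 1 by omega)
    have e4 := Finset.prod_Ioc_consecutive (fun m => w y m) (show 2 * n ≤ 10 * n by omega)
      (show 10 * n ≤ 10 * n + 1 by omega)
    have e5 : ∀ a : ℕ, Finset.Ioc a (a + 1) = {a + 1} := by
      intro a
      ext m
      rw [Finset.mem_Ioc, Finset.mem_singleton]
      omega
    rw [e5, Finset.prod_singleton] at e3 e4
    rw [e3, e4]
  have h6 : w y (2 * n + 1) ≤ 1 + y ^ 2 := by
    unfold w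
    push_cast
    have h7 : (1 : ℝ) ≤ (2 * (n : ℝ) + 1 - 1 / 2) ^ 2 := by nlinarith
    have h8 : y ^ 2 / (2 * (n : ℝ) + 1 - 1 / 2) ^ 2 ≤ y ^ 2 :=
      div_le_self (by positivity) h7
    linarith
  set B := ∏ m ∈ Finset.Ioc (2 * n) (10 * n), w y m with hB
  set B' := ∏ m ∈ Finset.Ioc (2 * n + 1) (10 * n + 1), w y m with hB'
  have hBp : 0 < B := Finset.prod_pos fun m _ => w_pos y m
  have hBp' : 0 < B' := Finset.prod_pos fun m _ => w_pos y m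
  have h9 : B ≤ (1 + y ^ 2) * B' := by
    calc B = B * 1 := (mul_one _).symm
      _ ≤ B * w y (10 * n + 1) := mul_le_mul_of_nonneg_left (one_le_w y _) hBp.le
      _ = w y (2 * n + 1) * B' := e2
      _ ≤ (1 + y ^ 2) * B' := mul_le_mul_of_nonneg_right h6 hBp'.le
  have h10 : 0 ≤ B3 n σ 0 := Finset.prod_nonneg fun i _ => by positivity
  calc B3 n σ 0 * B ≤ B3 n σ 0 * ((1 + y ^ 2) * B') := mul_le_mul_of_nonneg_left h9 h10
    _ = (B3 n σ 0 * B') * (1 + y ^ 2) := by ring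
    _ ≤ B3 n σ y * (1 + y ^ 2) := mul_le_mul_of_nonneg_right h1 (by positivity)

end G1Aaux

open G1Aaux in
/-- comparison of `WL` with the product over all half integers; the distances `i+1-δ` (zeros of `U`, `i < 2n`),
`i+δ` (zeros of `Z`), `2n-δ+k` (poles) with `δ = (4-σ)/8 ≤ 1/2` are compared with half integers -/
theorem G1_ratio {n σ : ℕ} (hn : 1 ≤ n) (hσ : σ = 1 ∨ σ = 3) (y : ℝ) (M : ℕ) (hM : 10 * n + 1 ≤ M) :
    (WL n σ y * Real.exp (-(2 * Real.pi * |y|))) ^ 2 *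
      ((∏ m ∈ Finset.Ioc 0 (2 * n), (1 + y ^ 2 / ((m : ℝ) - 1 / 2) ^ 2)) *
       (∏ m ∈ Finset.Ioc (2 * n) (3 * n), (1 + y ^ 2 / ((m : ℝ) - 1 / 2) ^ 2) ^ 6) *
       (∏ m ∈ Finset.Ioc (3 * n) (10 * n), (1 + y ^ 2 / ((m : ℝ) - 1 / 2) ^ 2) ^ 6) *
       (∏ m ∈ Finset.Ioc (10 * n) M, (1 + y ^ 2 / ((m : ℝ) - 1 / 2) ^ 2) ^ 4)) ≤
      WL n σ 0 ^ 2 * (64 * (1 + y ^ 2)) ^ 12 := by
  have hδ1 : (1 / 8 : ℝ) ≤ dl σ := by
    unfold dl
    rcases hσ with rfl | rfl <;> norm_num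
  have hδ2 : dl σ ≤ (1 / 2 : ℝ) := by
    unfold dl
    rcases hσ with rfl | rfl <;> norm_num
  have hw : ∀ m : ℕ, 1 + y ^ 2 / ((m : ℝ) - 1 / 2) ^ 2 = w y m := fun m => rfl
  simp only [hw, Finset.prod_pow]
  have hpos : ∀ s : Finset ℕ, 0 < ∏ m ∈ s, w y m := fun s =>
    Finset.prod_pos fun m _ => w_pos y m
  have hB := Finset.prod_Ioc_consecutive (fun m => w y m) (show 2 * n ≤ 3 * n by omega)
      (show 3 * n ≤ 10 * n by omega)
  have hHM : HM y M = (∏ m ∈ Finset.Ioc 0 (2 * n), w y m) *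
      (∏ m ∈ Finset.Ioc (2 * n) (10 * n), w y m) * (∏ m ∈ Finset.Ioc (10 * n) M, w y m) := by
    rw [HM_w, Finset.prod_Ioc_consecutive _ (by omega) (by omega),
      Finset.prod_Ioc_consecutive _ (by omega) (by omega)]
  have k1 := B1_le (n := n) hδ2 y
  have k2 := B2_le hn hδ1 y
  have k3 := B3_ge hn (by linarith) hδ2 y
  rw [← hB] at k3 hHM
  have hA := hpos (Finset.Ioc 0 (2 * n))
  have hX := hpos (Finset.Ioc (2 * n) (3 * n))
  have hY := hpos (Finset.Ioc (3 * n) (10 * n))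
  have hD := hpos (Finset.Ioc (10 * n) M)
  have hHMle := HM_le y M
  rw [hHM] at hHMle
  generalize (∏ m ∈ Finset.Ioc 0 (2 * n), w y m) = A at *
  generalize (∏ m ∈ Finset.Ioc (2 * n) (3 * n), w y m) = X at *
  generalize (∏ m ∈ Finset.Ioc (3 * n) (10 * n), w y m) = Y at *
  generalize (∏ m ∈ Finset.Ioc (10 * n) M, w y m) = D at *
  have hE : Real.exp (-(2 * Real.pi * |y|)) ^ 2 * (A * (X * Y) * D) ^ 4 ≤ 1 := by
    have h2 : 0 ≤ A * (X * Y) * D := by positivity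
    have h3 : (A * (X * Y) * D) ^ 4 ≤ Real.exp (Real.pi * |y|) ^ 4 :=
      pow_le_pow_left₀ h2 hHMle 4
    calc Real.exp (-(2 * Real.pi * |y|)) ^ 2 * (A * (X * Y) * D) ^ 4
        ≤ Real.exp (-(2 * Real.pi * |y|)) ^ 2 * Real.exp (Real.pi * |y|) ^ 4 :=
          mul_le_mul_of_nonneg_left h3 (by positivity)
      _ = 1 := by
          rw [← Real.exp_nat_mul, ← Real.exp_nat_mul, ← Real.exp_add]
          have : ((2 : ℕ) : ℝ) * -(2 * Real.pi * |y|) + ((4 : ℕ) : ℝ) * (Real.pi * |y|) = 0 := by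
            push_cast; ring
          rw [this, Real.exp_zero]
  rw [mul_pow, WL_sq, WL_sq]
  have b1 : 0 ≤ B1 n σ 0 := Finset.prod_nonneg fun i _ => by positivity
  have b2 : 0 ≤ B2 n σ 0 := Finset.prod_nonneg fun i _ => by positivity
  have b1' : 0 ≤ B1 n σ y := Finset.prod_nonneg fun i _ => by positivity
  have b2' : 0 ≤ B2 n σ y := Finset.prod_nonneg fun i _ => by positivity
  have hn1 : (1 : ℝ) ≤ n := by exact_mod_cast hn
  have b3 : ∀ z : ℝ, 0 < B3 n σ z := fun z => Finset.prod_pos fun k _ => by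
    have : (0 : ℝ) < 2 * (n : ℝ) - dl σ + k := by
      have hk : (0 : ℝ) ≤ k := Nat.cast_nonneg k
      linarith
    positivity
  have b30 := b3 0
  have b3y := b3 y
  generalize B1 n σ y = p at *
  generalize B2 n σ y = q at *
  generalize B3 n σ y = r at *
  generalize B1 n σ 0 = p0 at *
  generalize B2 n σ 0 = q0 at *
  generalize B3 n σ 0 = r0 at *
  set e := Real.exp (-(2 * Real.pi * |y|)) with he
  set T := 1 + y ^ 2 with hT
  have hT1 : 1 ≤ T := by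
    rw [hT]
    nlinarith [sq_nonneg y]
  have hT0 : 0 < T := by linarith
  -- the ratio
  have m1 : (X * Y) / r ≤ T / r0 := by
    rw [div_le_div_iff₀ b3y b30]
    nlinarith
  have m2 : ((X * Y) / r) ^ 2 ≤ (T / r0) ^ 2 := pow_le_pow_left₀ (by positivity) m1 2
  have m3 : p * q ^ 2 ≤ (p0 * A) * (q0 * (64 * T) * A) ^ 2 :=
    mul_le_mul k1 (pow_le_pow_left₀ b2' k2 2) (by positivity) (by positivity)
  calc p * q ^ 2 / r ^ 2 * e ^ 2 * (A * X ^ 6 * Y ^ 6 * D ^ 4)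
      = (p * q ^ 2) * ((X * Y) / r) ^ 2 * (e ^ 2 * (A * (X * Y) ^ 4 * D ^ 4)) := by
        field_simp
    _ ≤ ((p0 * A) * (q0 * (64 * T) * A) ^ 2) * (T / r0) ^ 2 *
          (e ^ 2 * (A * (X * Y) ^ 4 * D ^ 4)) := by
        refine mul_le_mul_of_nonneg_right ?_ (by positivity)
        exact mul_le_mul m3 m2 (by positivity) (by positivity)
    _ = p0 * q0 ^ 2 / r0 ^ 2 * ((64 * T) ^ 2 * T ^ 2) * (e ^ 2 * (A * (X * Y) * D) ^ 4) := by
        field_simp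
    _ ≤ p0 * q0 ^ 2 / r0 ^ 2 * ((64 * T) ^ 2 * T ^ 2) * 1 := by
        refine mul_le_mul_of_nonneg_left hE (by positivity)
    _ ≤ p0 * q0 ^ 2 / r0 ^ 2 * (64 * T) ^ 12 := by
        rw [mul_one]
        refine mul_le_mul_of_nonneg_left ?_ (by positivity)
        have h64 : 1 ≤ 64 * T := by linarith
        calc (64 * T) ^ 2 * T ^ 2 ≤ (64 * T) ^ 2 * (64 * T) ^ 2 := by
              refine mul_le_mul_of_nonneg_left (pow_le_pow_left₀ hT0.le (by linarith) 2)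
                (by positivity)
          _ = (64 * T) ^ 4 := by ring
          _ ≤ (64 * T) ^ 12 := pow_le_pow_right₀ h64 (by norm_num)

end

end Pool.Agent.QG.LG
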