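import Pool.Agent.H383.QG.GDefs
import Pool.Agent.H336R2.HD.G1

/-! The archimedean comparison `G1_main` for `8G ± 5π²/6`. -/

open Polynomial

namespace Pool.Agent.QG.LG

noncomputable section

namespace G1M

open Pool.Agent.H336R2.HD (PF1 good cpr cpr_nonneg chain one_le_PF1 g215_ge ch1 good1)

/-- chain 2 -/
def ch2 (n N : ℕ) : List (ℕ × ℕ × ℚ) :=
  [(2 * n, 12 * N, 9/4), (2 * n + 12 * N, 12 * N, 11/4)]

/-- chain 3 -/
def ch3 (n N : ℕ) : List (ℕ × ℕ × ℚ) :=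
  [(3 * n, 24 * N, 7/2), (4 * n, 24 * N, 9/2), (5 * n, 24 * N, 11/2), (6 * n, 24 * N, 13/2),
   (7 * n, 24 * N, 15/2), (8 * n, 24 * N, 17/2), (9 * n, 24 * N, 19/2)]

/-- chain 4 -/
def ch4 (n N : ℕ) : List (ℕ × ℕ × ℚ) :=
  [(10 * n, 24 * N, 21/2), (11 * n, 24 * N, 23/2), (12 * n, 48 * N, 13), (14 * n, 96 * N, 16),
   (18 * n, 192 * N, 22), (26 * n, 576 * N, 38), (50 * n, 1200 * N, 75), (100 * n, 2400 * N, 150),
   (200 * n, 30, 215)]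

lemma good2 {n N : ℕ} (hN : 1 ≤ N) (hn : n = 24 * N + 1) : good n (3 * n) (2 * n) (ch2 n N) := by
  have h1 : (1 : ℝ) ≤ N := by exact_mod_cast hN
  have h2 : (n : ℝ) = 24 * N + 1 := by rw [hn]; push_cast; ring
  simp only [ch2, good]
  refine ⟨by omega, by omega, by norm_num, ?_, by omega, by omega, by norm_num, ?_, by omega⟩ <;>
    push_cast <;> rw [h2] <;> linarith

lemma good3 {n N : ℕ} (hN : 1 ≤ N) (hn : n = 24 * N + 1) : good n (10 * n) (3 * n) (ch3 n N) := by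
  have h1 : (1 : ℝ) ≤ N := by exact_mod_cast hN
  have h2 : (n : ℝ) = 24 * N + 1 := by rw [hn]; push_cast; ring
  simp only [ch3, good]
  refine ⟨by omega, by omega, by norm_num, ?_, by omega, by omega, by norm_num, ?_, by omega,
    by omega, by norm_num, ?_, by omega, by omega, by norm_num, ?_, by omega, by omega,
    by norm_num, ?_, by omega, by omega, by norm_num, ?_, by omega, by omega,
    by norm_num, ?_, by omega⟩ <;>
    push_cast <;> rw [h2] <;> linarith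

lemma good4 {n N : ℕ} (hN : 1 ≤ N) (hn : n = 24 * N + 1) :
    good n (200 * n + 30) (10 * n) (ch4 n N) := by
  have h1 : (1 : ℝ) ≤ N := by exact_mod_cast hN
  have h2 : (n : ℝ) = 24 * N + 1 := by rw [hn]; push_cast; ring
  simp only [ch4, good]
  refine ⟨by omega, by omega, by norm_num, ?_, by omega, by omega, by norm_num, ?_, by omega,
    by omega, by norm_num, ?_, by omega, by omega, by norm_num, ?_, by omega, by omega,
    by norm_num, ?_, by omega, by omega, by norm_num, ?_, by omega, by omega,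
    by norm_num, ?_, by omega, by omega, by norm_num, ?_, by omega, by omega,
    by norm_num, ?_, by omega⟩ <;>
    push_cast <;> rw [h2] <;> linarith

lemma key_prod (g : ℚ → ℝ) (n N : ℕ) :
    cpr g (ch1 n N) * cpr g (ch2 n N) ^ 6 * cpr g (ch3 n N) ^ 6 * cpr g (ch4 n N) ^ 4 =
    ((FXG.map fun x => g x.1 ^ x.2).prod ^ N) ^ 2 * g 215 ^ 120 := by
  simp only [cpr, ch1, ch2, ch3, ch4, FXG, List.map_cons, List.map_nil, List.prod_cons,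
    List.prod_nil]
  ring

lemma WL_nonneg (n σ : ℕ) (y : ℝ) : 0 ≤ WL n σ y := by
  unfold WL
  apply div_nonneg
  · exact mul_nonneg (Finset.prod_nonneg fun m _ => by positivity)
      (Finset.prod_nonneg fun m _ => by positivity)
  · exact Finset.prod_nonneg fun m _ => by positivity

lemma abs_aux' (E F g Y s r : ℝ) (hE : 0 ≤ E) (hF : 0 ≤ F) (hY : 1 ≤ Y) (hs : 0 ≤ s)
    (hA : E * (F * g ^ 120) ≤ r ^ 2 * (64 * Y) ^ 12) (hB : Y ≤ s ^ 2 * g) :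
    E * F * Y ^ 40 ≤ r ^ 2 * 64 ^ 12 * s ^ 240 := by
  have hY0 : 0 < Y := by linarith
  have hB' : Y ^ 120 ≤ (s ^ 2 * g) ^ 120 := pow_le_pow_left₀ hY0.le hB _
  have hT : 0 ≤ E * F := mul_nonneg hE hF
  have h3 : E * F * Y ^ 120 ≤ s ^ 240 * (r ^ 2 * (64 * Y) ^ 12) := by
    calc E * F * Y ^ 120 ≤ E * F * (s ^ 2 * g) ^ 120 :=
          mul_le_mul_of_nonneg_left hB' hT
      _ = s ^ 240 * (E * (F * g ^ 120)) := by
          have e1 : (s ^ 2 * g) ^ 120 = s ^ 240 * g ^ 120 := by rw [mul_pow, ← pow_mul]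
          rw [e1]
          generalize s ^ 240 = S
          generalize g ^ 120 = G
          ring
      _ ≤ s ^ 240 * (r ^ 2 * (64 * Y) ^ 12) :=
          mul_le_mul_of_nonneg_left hA (pow_nonneg hs 240)
  have h4 : (E * F * Y ^ 108) * Y ^ 12 ≤ (r ^ 2 * 64 ^ 12 * s ^ 240) * Y ^ 12 := by
    have e1 : (E * F * Y ^ 108) * Y ^ 12 = E * F * Y ^ 120 := by
      rw [mul_assoc, ← pow_add]
    have e2 : (r ^ 2 * 64 ^ 12 * s ^ 240) * Y ^ 12 = s ^ 240 * (r ^ 2 * (64 * Y) ^ 12) := by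
      rw [mul_pow]
      generalize s ^ 240 = S
      generalize Y ^ 12 = Z
      ring
    rw [e1, e2]
    exact h3
  have h5 : E * F * Y ^ 108 ≤ r ^ 2 * 64 ^ 12 * s ^ 240 :=
    le_of_mul_le_mul_right h4 (by positivity)
  exact (mul_le_mul_of_nonneg_left (pow_le_pow_right₀ hY (by norm_num)) hT).trans h5

end G1M

open Pool.Agent.H336R2.HD (PF1 good cpr cpr_nonneg chain one_le_PF1 g215_ge ch1 good1) in
open G1M in
/-- `G1_main` from `G1_zero` and `G1_ratio` -/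
theorem G1_main_of
    (G1_zero : ∃ (C : ℝ) (K : ℕ), 0 < C ∧ ∀ n σ : ℕ, 1 ≤ n → (σ = 1 ∨ σ = 3) →
      WL n σ 0 * (n : ℝ) ^ (10 * n) ≤ C * (n : ℝ) ^ K * Real.exp (n * PhiG))
    (G1_ratio : ∀ {n σ : ℕ}, 1 ≤ n → (σ = 1 ∨ σ = 3) → ∀ (y : ℝ) (M : ℕ), 10 * n + 1 ≤ M →
      (WL n σ y * Real.exp (-(2 * Real.pi * |y|))) ^ 2 *
      ((∏ m ∈ Finset.Ioc 0 (2 * n), (1 + y ^ 2 / ((m : ℝ) - 1 / 2) ^ 2)) *
       (∏ m ∈ Finset.Ioc (2 * n) (3 * n), (1 + y ^ 2 / ((m : ℝ) - 1 / 2) ^ 2) ^ 6) *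
       (∏ m ∈ Finset.Ioc (3 * n) (10 * n), (1 + y ^ 2 / ((m : ℝ) - 1 / 2) ^ 2) ^ 6) *
       (∏ m ∈ Finset.Ioc (10 * n) M, (1 + y ^ 2 / ((m : ℝ) - 1 / 2) ^ 2) ^ 4)) ≤
      WL n σ 0 ^ 2 * (64 * (1 + y ^ 2)) ^ 12) :
    ∃ (C : ℝ) (K : ℕ), 0 < C ∧ ∀ N σ : ℕ, 1 ≤ N → (σ = 1 ∨ σ = 3) → ∀ n : ℕ, n = 24 * N + 1 →
    ∀ y : ℝ, WL n σ y * (n : ℝ) ^ (10 * n) * Real.exp (-(2 * Real.pi * |y|)) * (1 + y ^ 2) ^ 6 *
      FXpG ((y / n) ^ 2) ^ N ≤ C * (n : ℝ) ^ K * Real.exp (n * PhiG) := by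
  obtain ⟨C, K, hC, h0⟩ := G1_zero
  refine ⟨64 ^ 6 * 215 ^ 120 * C, K + 120, by positivity, ?_⟩
  intro N σ hN hσ n hnN y
  have hn : 1 ≤ n := by omega
  have hn' : (1 : ℝ) ≤ n := by exact_mod_cast hn
  obtain ⟨g, hg⟩ : ∃ g : ℚ → ℝ, ∀ q : ℚ, g q = 1 + (y / n) ^ 2 / (q : ℝ) ^ 2 := ⟨_, fun _ => rfl⟩
  have hg0 : ∀ q, 0 ≤ g q := fun q => by rw [hg]; positivity
  have hR := G1_ratio hn hσ y (200 * n + 30) (by omega)
  simp only [Finset.prod_pow] at hR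
  change (WL n σ y * Real.exp (-(2 * Real.pi * |y|))) ^ 2 *
      (PF1 y 0 (2 * n) * PF1 y (2 * n) (3 * n) ^ 6 * PF1 y (3 * n) (10 * n) ^ 6 *
       PF1 y (10 * n) (200 * n + 30) ^ 4) ≤ WL n σ 0 ^ 2 * (64 * (1 + y ^ 2)) ^ 12 at hR
  have k1 := chain n hn y g hg _ _ _ (good1 hN hnN)
  have k2 := chain n hn y g hg _ _ _ (good2 hN hnN)
  have k3 := chain n hn y g hg _ _ _ (good3 hN hnN)
  have k4 := chain n hn y g hg _ _ _ (good4 hN hnN)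
  have n1 := cpr_nonneg g hg0 (ch1 n N)
  have n2 := cpr_nonneg g hg0 (ch2 n N)
  have n3 := cpr_nonneg g hg0 (ch3 n N)
  have n4 := cpr_nonneg g hg0 (ch4 n N)
  have p1 := n1.trans k1
  have p2 := n2.trans k2
  have p3 := n3.trans k3
  have p4 := n4.trans k4
  have hS : cpr g (ch1 n N) * cpr g (ch2 n N) ^ 6 * cpr g (ch3 n N) ^ 6 * cpr g (ch4 n N) ^ 4 ≤
      PF1 y 0 (2 * n) * PF1 y (2 * n) (3 * n) ^ 6 * PF1 y (3 * n) (10 * n) ^ 6 *
       PF1 y (10 * n) (200 * n + 30) ^ 4 := by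
    gcongr
  rw [G1M.key_prod] at hS
  have hF : FXpG ((y / n) ^ 2) = (FXG.map fun x => g x.1 ^ x.2).prod := by
    simp only [FXpG, hg]
  rw [← hF] at hS
  have hF0 : 0 ≤ FXpG ((y / n) ^ 2) := by
    rw [hF]
    apply List.prod_nonneg
    intro z hz
    obtain ⟨w, _, rfl⟩ := List.mem_map.mp hz
    exact pow_nonneg (hg0 _) _
  have hg215 : 1 + y ^ 2 ≤ (215 * (n : ℝ)) ^ 2 * g 215 := by
    rw [hg]
    have := g215_ge hn y
    push_cast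
    exact this
  have hN0 : 0 ≤ WL n σ y := WL_nonneg n σ y
  have hR0 : 0 ≤ WL n σ 0 := WL_nonneg n σ 0
  have h1' := h0 n σ hn hσ
  have hY1 : 1 ≤ 1 + y ^ 2 := le_add_of_nonneg_right (sq_nonneg y)
  -- main inequality, squared
  have hmain : (WL n σ y * Real.exp (-(2 * Real.pi * |y|))) ^ 2 * (FXpG ((y / n) ^ 2) ^ N) ^ 2 *
      (1 + y ^ 2) ^ 40 ≤ WL n σ 0 ^ 2 * 64 ^ 12 * (215 * (n : ℝ)) ^ 240 := by
    have hA : (WL n σ y * Real.exp (-(2 * Real.pi * |y|))) ^ 2 *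
        ((FXpG ((y / n) ^ 2) ^ N) ^ 2 * g 215 ^ 120) ≤ WL n σ 0 ^ 2 * (64 * (1 + y ^ 2)) ^ 12 :=
      (mul_le_mul_of_nonneg_left hS (sq_nonneg _)).trans hR
    exact abs_aux' _ _ _ _ _ _ (by positivity) (by positivity) hY1 (by positivity) hA hg215
  have hsq : (WL n σ y * Real.exp (-(2 * Real.pi * |y|)) * (1 + y ^ 2) ^ 6 *
      FXpG ((y / n) ^ 2) ^ N) ^ 2 ≤ (64 ^ 6 * (215 * (n : ℝ)) ^ 120 * WL n σ 0) ^ 2 := by
    generalize FXpG ((y / n) ^ 2) ^ N = F at hmain ⊢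
    generalize Real.exp (-(2 * Real.pi * |y|)) = e at hmain ⊢
    generalize 1 + y ^ 2 = Y at hmain hY1 ⊢
    generalize WL n σ y = r at hmain ⊢
    generalize WL n σ 0 = r0 at hmain ⊢
    calc (r * e * Y ^ 6 * F) ^ 2 = ((r * e) ^ 2 * F ^ 2) * Y ^ 12 := by ring
      _ ≤ ((r * e) ^ 2 * F ^ 2) * Y ^ 40 :=
          mul_le_mul_of_nonneg_left (pow_le_pow_right₀ hY1 (by norm_num)) (by positivity)
      _ ≤ r0 ^ 2 * 64 ^ 12 * (215 * (n : ℝ)) ^ 240 := hmain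
      _ = _ := by ring
  have hfin := (le_abs_self _).trans (abs_le_of_sq_le_sq hsq (by positivity))
  have hnp : (0 : ℝ) ≤ (n : ℝ) ^ (10 * n) := by positivity
  calc WL n σ y * (n : ℝ) ^ (10 * n) * Real.exp (-(2 * Real.pi * |y|)) * (1 + y ^ 2) ^ 6 *
        FXpG ((y / n) ^ 2) ^ N
      = (WL n σ y * Real.exp (-(2 * Real.pi * |y|)) * (1 + y ^ 2) ^ 6 *
        FXpG ((y / n) ^ 2) ^ N) * (n : ℝ) ^ (10 * n) := by
          generalize FXpG ((y / n) ^ 2) ^ N = F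
          generalize (n : ℝ) ^ (10 * n) = T
          ring
    _ ≤ (64 ^ 6 * (215 * (n : ℝ)) ^ 120 * WL n σ 0) * (n : ℝ) ^ (10 * n) :=
        mul_le_mul_of_nonneg_right hfin hnp
    _ = 64 ^ 6 * (215 * (n : ℝ)) ^ 120 * (WL n σ 0 * (n : ℝ) ^ (10 * n)) := by
        generalize (n : ℝ) ^ (10 * n) = T
        generalize (215 * (n : ℝ)) ^ 120 = S
        ring
    _ ≤ 64 ^ 6 * (215 * (n : ℝ)) ^ 120 * (C * (n : ℝ) ^ K * Real.exp (n * PhiG)) :=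
        mul_le_mul_of_nonneg_left h1' (by positivity)
    _ = 64 ^ 6 * 215 ^ 120 * C * (n : ℝ) ^ (K + 120) * Real.exp (n * PhiG) := by
        rw [mul_pow, pow_add]; ring

end

end Pool.Agent.QG.LG
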