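import Pool.Agent.H383.QG.GDefs
import Pool.Agent.H337R2.Stir

/-! Task G1Z: the size of `WL` at the real point of the line. -/

open Polynomial Pool.Agent.H337R2 Filter Topology

namespace Pool.Agent.QG.LG

noncomputable section

namespace G1ZAux

lemma prodle (m : ℕ) (x : ℝ) (h0 : 0 ≤ x) (h1 : x ≤ 1) :
    ∏ j ∈ Finset.range m, |(m : ℝ) - j - x| ≤ (m.factorial : ℝ) := by
  rw [← Finset.prod_range_add_one_eq_factorial, ← Finset.prod_range_reflect]
  push_cast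
  refine Finset.prod_le_prod (fun j _ => abs_nonneg _) fun j hj => ?_
  have hj' := Finset.mem_range.1 hj
  have h2 : ((m - 1 - j : ℕ) : ℝ) = (m : ℝ) - 1 - j := by
    rw [Nat.cast_sub (by omega), Nat.cast_sub (by omega)]
    simp
  have h3 : (0 : ℝ) ≤ j := by positivity
  rw [h2, abs_le]
  constructor <;> linarith

lemma facup (N : ℕ) : (N.factorial : ℝ) ≤ Real.exp 1 * (N + 1) * Real.exp (xl N - N) := by
  have h := fac_up N
  rw [Real.exp_sub, ← mul_div_assoc, le_div_iff₀ (Real.exp_pos _)]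
  exact h

lemma faclow (N : ℕ) : Real.exp (xl N - N) ≤ (N.factorial : ℝ) := by
  have h := fac_low 0 N
  rw [Nat.factorial_zero, Nat.cast_one, one_mul, Nat.zero_add, Nat.cast_zero, zero_add, xl_zero,
    Real.exp_zero, mul_one] at h
  rw [Real.exp_sub, div_le_iff₀ (Real.exp_pos _)]
  exact h

end G1ZAux

open G1ZAux

theorem G1_zero : ∃ (C : ℝ) (K : ℕ), 0 < C ∧ ∀ n σ : ℕ, 1 ≤ n → (σ = 1 ∨ σ = 3) →
    WL n σ 0 * (n : ℝ) ^ (10 * n) ≤ C * (n : ℝ) ^ K * Real.exp (n * PhiG) := by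
  refine ⟨25 * (3 * Real.exp 1) ^ 5, 5, by positivity, fun n σ hn hσ => ?_⟩
  have hn1 : (1 : ℝ) ≤ n := by exact_mod_cast hn
  have hn0 : (0 : ℝ) < n := by linarith
  have hσr : (σ : ℝ) = 1 ∨ (σ : ℝ) = 3 := by
    rcases hσ with h | h
    · left; exact_mod_cast h
    · right; exact_mod_cast h
  have hσ1 : (1 : ℝ) ≤ σ := by rcases hσr with h | h <;> linarith
  have hσ3 : (σ : ℝ) ≤ 3 := by rcases hσr with h | h <;> linarith
  have hz : zc n σ 0 = ((2 * n - (4 - σ) / 8 : ℝ) : ℂ) := by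
    unfold zc
    simp
  have hU : ∏ j ∈ Finset.range (2 * n), ‖zc n σ 0 - (j : ℂ)‖ ≤ ((2 * n).factorial : ℝ) := by
    refine le_trans (le_of_eq ?_) (prodle (2 * n) ((4 - σ) / 8) (by linarith) (by linarith))
    refine Finset.prod_congr rfl fun j _ => ?_
    have h1 : zc n σ 0 - (j : ℂ) = ((((2 * n : ℕ) : ℝ) - j - (4 - σ) / 8 : ℝ) : ℂ) := by
      rw [hz]
      push_cast
      ring
    rw [h1, Complex.norm_real, Real.norm_eq_abs]
  have hZ : ∏ v ∈ Finset.range (2 * n), ‖zc n σ 0 - ((v : ℂ) + σ / 4)‖ ^ 2 ≤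
      ((2 * n).factorial : ℝ) ^ 2 := by
    rw [Finset.prod_pow]
    refine pow_le_pow_left₀ (Finset.prod_nonneg fun _ _ => norm_nonneg _) ?_ 2
    refine le_trans (le_of_eq ?_) (prodle (2 * n) (1 / 2 + σ / 8) (by linarith) (by linarith))
    refine Finset.prod_congr rfl fun j _ => ?_
    have h1 : zc n σ 0 - ((j : ℂ) + σ / 4) =
        ((((2 * n : ℕ) : ℝ) - j - (1 / 2 + σ / 8) : ℝ) : ℂ) := by
      rw [hz]
      push_cast
      ring
    rw [h1, Complex.norm_real, Real.norm_eq_abs]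
  set F : ℝ := ((2 * n).factorial : ℝ) with hF
  set G : ℝ := ((10 * n).factorial : ℝ) with hG
  have hF0 : 0 < F := by positivity
  have hG0 : 0 < G := by positivity
  set D : ℝ := ∏ k ∈ Finset.Icc 1 (8 * n), ‖zc n σ 0 + (k : ℂ)‖ with hD
  have hDe : ∏ k ∈ Finset.Icc 1 (8 * n), ‖zc n σ 0 + (k : ℂ)‖ ^ 2 = D ^ 2 := by
    rw [Finset.prod_pow]
  have hDlow : G ≤ 5 * D * F := by
    obtain ⟨t, ht⟩ : ∃ t, 2 * n = t + 1 := ⟨2 * n - 1, by omega⟩
    have h1 := prod_up t (8 * n)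
    have h2 : ∏ m ∈ Finset.Icc 1 (8 * n), ((t : ℝ) + m) ≤ D := by
      refine Finset.prod_le_prod (fun _ _ => by positivity) fun k _ => ?_
      have h3 : zc n σ 0 + (k : ℂ) = ((2 * n - (4 - σ) / 8 + k : ℝ) : ℂ) := by
        rw [hz]
        push_cast
        ring
      have h4 : (2 * n : ℝ) = t + 1 := by exact_mod_cast ht
      rw [h3, Complex.norm_real, Real.norm_eq_abs]
      refine le_trans ?_ (le_abs_self _)
      linarith
    have h5 : F = (2 * n) * (t.factorial : ℝ) := by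
      rw [hF, ht, Nat.factorial_succ]
      push_cast
      have h4 : (2 * n : ℝ) = t + 1 := by exact_mod_cast ht
      rw [h4]
    have h6 : G = (10 * n) * ((t + 8 * n).factorial : ℝ) := by
      rw [hG, show 10 * n = (t + 8 * n) + 1 by omega, Nat.factorial_succ]
      push_cast
      have h4 : (2 * n : ℝ) = t + 1 := by exact_mod_cast ht
      have h7 : (t : ℝ) + 8 * n + 1 = 10 * n := by linarith
      rw [h7]
    rw [h6, h5, ← h1]
    have h8 : (0 : ℝ) < (t.factorial : ℝ) := by positivity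
    calc 10 * (n : ℝ) * ((∏ m ∈ Finset.Icc 1 (8 * n), ((t : ℝ) + m)) * (t.factorial : ℝ))
        ≤ 10 * (n : ℝ) * (D * (t.factorial : ℝ)) := by gcongr
      _ = 5 * D * (2 * n * (t.factorial : ℝ)) := by ring
  have hD0 : 0 < D := by
    by_contra hc
    push Not at hc
    nlinarith
  have hWL : WL n σ 0 ≤ 25 * F ^ 5 / G ^ 2 := by
    unfold WL
    rw [hDe]
    calc (∏ j ∈ Finset.range (2 * n), ‖zc n σ 0 - (j : ℂ)‖) *
          (∏ v ∈ Finset.range (2 * n), ‖zc n σ 0 - ((v : ℂ) + σ / 4)‖ ^ 2) / D ^ 2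
        ≤ F * F ^ 2 / D ^ 2 := by
          apply div_le_div_of_nonneg_right _ (by positivity)
          exact mul_le_mul hU hZ (Finset.prod_nonneg fun _ _ => by positivity) hF0.le
      _ ≤ 25 * F ^ 5 / G ^ 2 := by
          rw [div_le_div_iff₀ (by positivity) (by positivity)]
          have h1 : G ^ 2 ≤ (5 * D * F) ^ 2 := pow_le_pow_left₀ hG0.le hDlow 2
          calc F * F ^ 2 * G ^ 2 ≤ F * F ^ 2 * (5 * D * F) ^ 2 := by gcongr
            _ = 25 * F ^ 5 * D ^ 2 := by ring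
  have hFup : F ≤ Real.exp 1 * (3 * n) * Real.exp (xl ((2 * n : ℕ) : ℝ) - ((2 * n : ℕ) : ℝ)) := by
    refine (facup (2 * n)).trans ?_
    gcongr
    push_cast
    linarith
  have hGlow : Real.exp (xl ((10 * n : ℕ) : ℝ) - ((10 * n : ℕ) : ℝ)) ≤ G := faclow (10 * n)
  have hnn : (n : ℝ) ^ (10 * n) = Real.exp (10 * (n * Real.log n)) := by
    rw [show 10 * ((n : ℝ) * Real.log n) = ((10 * n : ℕ) : ℝ) * Real.log n by push_cast; ring,
      Real.exp_nat_mul, Real.exp_log hn0]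
  have hs : ∀ a : ℝ, 0 ≤ a → xl (a * n) = n * xl a + n * a * Real.log n := by
    intro a ha
    rw [mul_comm a]
    exact xl_scale hn0 ha
  have hn10 : (0 : ℝ) < (n : ℝ) ^ (10 * n) := by positivity
  calc WL n σ 0 * (n : ℝ) ^ (10 * n) ≤ 25 * F ^ 5 / G ^ 2 * (n : ℝ) ^ (10 * n) := by gcongr
    _ ≤ 25 * (Real.exp 1 * (3 * n) *
          Real.exp (xl ((2 * n : ℕ) : ℝ) - ((2 * n : ℕ) : ℝ))) ^ 5 /
          (Real.exp (xl ((10 * n : ℕ) : ℝ) - ((10 * n : ℕ) : ℝ))) ^ 2 * (n : ℝ) ^ (10 * n) := by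
        gcongr
    _ = 25 * (3 * Real.exp 1) ^ 5 * (n : ℝ) ^ 5 *
          (Real.exp (xl ((2 * n : ℕ) : ℝ) - ((2 * n : ℕ) : ℝ)) ^ 5 /
          (Real.exp (xl ((10 * n : ℕ) : ℝ) - ((10 * n : ℕ) : ℝ))) ^ 2 *
            Real.exp (10 * (n * Real.log n))) := by
        rw [hnn]
        ring
    _ = 25 * (3 * Real.exp 1) ^ 5 * (n : ℝ) ^ 5 * Real.exp (n * PhiG) := by
        congr 1
        rw [← Real.exp_nat_mul, ← Real.exp_nat_mul, ← Real.exp_sub, ← Real.exp_add]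
        congr 1
        push_cast
        rw [hs 2 (by norm_num), hs 10 (by norm_num)]
        unfold xl PhiG
        ring

end

end Pool.Agent.QG.LG
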