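import Pool.Agent.H383.QG.GDefs

/-!
# G2: the node polynomials on the line
-/

open Polynomial

namespace Pool.Agent.QG.LG

theorem G2_qG {n : ℕ} (hn : 1 ≤ n) (σ : ℕ) (y : ℝ) (h : ℚ) :
    ‖aeval (zc n σ y) (qG n σ h)‖ = (n : ℝ) ^ 2 * |(h : ℝ) - (y / n) ^ 2| := by
  have hn0 : (n : ℝ) ≠ 0 := by
    have : (0 : ℝ) < n := by exact_mod_cast hn
    exact this.ne'
  have hval : aeval (zc n σ y) (qG n σ h) =
      ((((n : ℝ) ^ 2 * ((h : ℝ) - (y / n) ^ 2) : ℝ)) : ℂ) := by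
    have h1 : (n : ℝ) ^ 2 * ((h : ℝ) - (y / n) ^ 2) = h * (n : ℝ) ^ 2 - y ^ 2 := by
      field_simp
    rw [h1]
    simp only [qG, map_add, map_sub, map_pow, aeval_X, aeval_C, zc, cq, eq_ratCast]
    push_cast
    ring_nf
    rw [Complex.I_sq]
    ring
  rw [hval, Complex.norm_real, Real.norm_eq_abs, abs_mul,
    abs_of_nonneg (by positivity : (0 : ℝ) ≤ (n : ℝ) ^ 2)]

end Pool.Agent.QG.LG
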