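import Pool.Agent.H383.QG.GDefs
import Pool.Agent.H336R2.HD.G3

/-!
# G3: the numerical certificate
-/

namespace Pool.Agent.QG.LG

open Pool.Agent.H336R2.HD.G3 (vl P1 P2 C6 D6 Q Pos Q_pos P2_pos C6_pos Q_low Q_six Q_append)

namespace GC

/-- thousand times the node -/
def hN : ℕ → ℕ
  | 0 => 40
  | 1 => 900
  | _ => 2100

/-- numerator of `|h - v|` at `v = n/d` -/
def En (i n d : ℕ) : ℕ := (hN i * d - 1000 * n) + (1000 * n - hN i * d)

/-- bound for the left side on `[n0/d0, n1/d1]` -/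
def LNz (n0 d0 n1 d1 : ℕ) : ℕ → ℕ
  | 0 => 1
  | i + 1 => LNz n0 d0 n1 d1 i * (max (En i n0 d0 * d1) (En i n1 d1 * d0)) ^ (2 * sG i)

def SNz : ℕ → ℕ
  | 0 => 0
  | i + 1 => SNz i + sG i

def K1 : List (ℕ × ℕ × ℕ) :=
  [(1, 24, 1), (3, 24, 1), (5, 24, 1), (7, 24, 1), (9, 24, 1), (11, 24, 1), (13, 24, 1),
   (15, 24, 1), (17, 24, 1), (19, 24, 1), (21, 24, 1), (23, 24, 1), (9, 8, 3), (11, 8, 3),
   (13, 8, 3), (15, 8, 3), (9, 4, 36), (11, 4, 36)]

def K6 : List (ℕ × ℕ × ℕ) := [(7, 2, 72), (9, 2, 72)]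

def K2 : List (ℕ × ℕ × ℕ) :=
  [(11, 2, 72), (13, 2, 72), (15, 2, 72), (17, 2, 72), (19, 2, 72), (21, 2, 48), (23, 2, 48),
   (13, 1, 96), (16, 1, 192), (22, 1, 384), (38, 1, 1152), (75, 1, 2400), (150, 1, 4800)]

def KK0 : List (ℕ × ℕ × ℕ) := K1 ++ K6 ++ K2

def chkIz (b : ℕ) (p q : ℕ × ℕ) : Bool :=
  decide (0 < p.2) && decide (0 < q.2) &&
    decide (2 ^ tG b * LNz p.1 p.2 q.1 q.2 b * P2 KK0 p.2 ≤
      P1 KK0 p.1 p.2 * (1000 * p.2 * q.2) ^ (2 * SNz b))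

def chkLz (b : ℕ) : List (ℕ × ℕ) → Bool
  | [] => true
  | p :: l => (match l with
    | [] => true
    | q :: _ => chkIz b p q) && chkLz b l

def chkTz (b : ℕ) (p : ℕ × ℕ) : Bool :=
  decide (0 < p.2) && decide (2 * p.2 ≤ p.1) &&
    decide (2 ^ tG b * P2 K1 p.2 * P2 K2 p.2 * C6 K6 * p.2 ^ (144 - 2 * SNz b) ≤
      p.1 ^ (144 - 2 * SNz b) * P1 K1 p.1 p.2 * P1 K2 p.1 p.2 * D6 K6)

def bz1 : List (ℕ × ℕ) :=
  [(0, 1), (13, 100), (219, 1000), (137, 500), (311, 1000), (169, 500), (359, 1000), (3, 8),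
   (97, 250), (399, 1000), (409, 1000), (417, 1000), (53, 125), (431, 1000), (437, 1000),
   (221, 500), (447, 1000), (451, 1000), (91, 200), (459, 1000), (463, 1000), (233, 500),
   (469, 1000), (59, 125), (19, 40), (239, 500), (481, 1000), (121, 250), (487, 1000), (49, 100),
   (493, 1000), (62, 125), (499, 1000), (251, 500), (101, 200), (127, 250), (511, 1000),
   (257, 500), (517, 1000), (13, 25), (523, 1000), (263, 500), (53, 100), (267, 500), (269, 500),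
   (271, 500), (547, 1000), (69, 125), (279, 500), (141, 250), (571, 1000), (579, 1000),
   (147, 250), (299, 500), (61, 100), (5, 8), (643, 1000), (333, 500), (139, 200), (147, 200),
   (99, 125), (22, 25), (517, 500), (1359, 1000), (1179, 500), (5489, 500)]

def bz2 : List (ℕ × ℕ) :=
  [(0, 1), (21, 250), (127, 1000), (151, 1000), (167, 1000), (89, 500), (93, 500), (193, 1000),
   (99, 500), (203, 1000), (207, 1000), (21, 100), (213, 1000), (27, 125), (219, 1000),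
   (221, 1000), (223, 1000), (9, 40), (227, 1000), (229, 1000), (231, 1000), (233, 1000),
   (47, 200), (237, 1000), (239, 1000), (241, 1000), (61, 250), (247, 1000), (1, 4), (253, 1000),
   (257, 1000), (261, 1000), (133, 500), (34, 125), (279, 1000), (36, 125), (301, 1000),
   (319, 1000), (347, 1000), (397, 1000), (511, 1000), (39, 40), (143, 100), (1673, 1000),
   (457, 250), (1937, 1000), (1009, 500), (1041, 500), (2133, 1000), (272, 125), (553, 250),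
   (561, 250), (284, 125), (2297, 1000), (2319, 1000), (2339, 1000), (1179, 500), (19, 8),
   (2391, 1000), (1203, 500), (2421, 1000), (487, 200), (306, 125), (2461, 1000), (1237, 500),
   (1243, 500), (1249, 500), (251, 100), (1261, 500), (1267, 500), (1273, 500), (1279, 500),
   (257, 100), (2583, 1000), (649, 250), (261, 100), (328, 125), (2639, 1000), (531, 200),
   (334, 125), (269, 100), (2709, 1000), (273, 100), (2753, 1000), (1389, 500), (1403, 500),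
   (1419, 500), (1437, 500), (729, 250), (1483, 500), (1513, 500), (31, 10), (639, 200),
   (83, 25), (873, 250), (749, 200), (4151, 1000), (612, 125), (1323, 200), (12993, 1000)]

def bz3 : List (ℕ × ℕ) :=
  [(0, 1), (2, 25), (63, 500), (157, 1000), (23, 125), (53, 250), (123, 500), (297, 1000),
   (199, 500), (751, 1000), (1583, 1000), (2969, 1000), (1827, 500), (163, 40), (4363, 1000),
   (183, 40), (2369, 500), (1217, 250), (2487, 500), (5063, 1000), (5139, 1000), (1041, 200),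
   (5263, 1000), (2657, 500), (134, 25), (5401, 1000), (5439, 1000), (5473, 1000), (1101, 200),
   (2767, 500), (5561, 1000), (5587, 1000), (5611, 1000), (2817, 500), (707, 125), (5677, 1000),
   (5697, 1000), (1429, 250), (2867, 500), (719, 125), (5769, 1000), (2893, 500), (2901, 500),
   (2909, 500), (2917, 500), (5849, 1000), (733, 125), (5879, 1000), (2947, 500), (5909, 1000),
   (1481, 250), (5939, 1000), (2977, 500), (5969, 1000), (748, 125), (5999, 1000), (3007, 500),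
   (603, 100), (3023, 500), (3031, 500), (6079, 1000), (762, 125), (3057, 500), (1533, 250),
   (6151, 1000), (6171, 1000), (774, 125), (6213, 1000), (1559, 250), (313, 50), (1257, 200),
   (789, 125), (6341, 1000), (1593, 250), (1281, 200), (6441, 1000), (162, 25), (6523, 1000),
   (6571, 1000), (828, 125), (1671, 250), (844, 125), (683, 100), (173, 25), (3513, 500),
   (7153, 1000), (1827, 250), (7501, 1000), (7749, 1000), (202, 25), (4271, 500), (2307, 250),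
   (1293, 125), (1243, 100), (17377, 1000), (36681, 1000)]

theorem hN_le (i : ℕ) : hN i ≤ 2100 := by
  match i with
  | 0 => decide
  | 1 => decide
  | _ + 2 => exact (by decide : 2100 ≤ 2100)

theorem hG_eq (i : ℕ) : ((hG i : ℚ) : ℝ) = (hN i : ℝ) / 1000 := by
  match i with
  | 0 => simp only [hG, hN]; push_cast; norm_num
  | 1 => simp only [hG, hN]; push_cast; norm_num
  | _ + 2 => simp only [hG, hN]; push_cast; norm_num

theorem En_cast (i n d : ℕ) : ((En i n d : ℕ) : ℝ) = |(hN i : ℝ) * d - 1000 * n| := by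
  unfold En
  rcases le_total (hN i * d) (1000 * n) with h | h
  · rw [Nat.sub_eq_zero_of_le h, zero_add, Nat.cast_sub h]
    have h' : (hN i : ℝ) * d ≤ 1000 * n := by exact_mod_cast h
    rw [abs_of_nonpos (by linarith)]
    push_cast
    ring
  · rw [Nat.sub_eq_zero_of_le h, add_zero, Nat.cast_sub h]
    have h' : (1000 : ℝ) * n ≤ hN i * d := by exact_mod_cast h
    rw [abs_of_nonneg (by linarith)]
    push_cast
    ring

theorem abs_max {h v0 v1 v M : ℝ} (h0 : v0 ≤ v) (h1 : v ≤ v1) (hM0 : |h - v0| ≤ M) (hM1 : |h - v1| ≤ M) :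
    |h - v| ≤ M := by
  rw [abs_le] at hM0 hM1 ⊢
  constructor <;> linarith [hM0.1, hM0.2, hM1.1, hM1.2]

theorem factorz (i : ℕ) {n0 d0 n1 d1 : ℕ} (hd0 : 0 < d0) (hd1 : 0 < d1) {v : ℝ}
    (h0 : vl (n0, d0) ≤ v) (h1 : v ≤ vl (n1, d1)) :
    |((hG i : ℚ) : ℝ) - v| * (1000 * d0 * d1) ≤
      ((max (En i n0 d0 * d1) (En i n1 d1 * d0) : ℕ) : ℝ) := by
  have hd0' : (0 : ℝ) < d0 := by exact_mod_cast hd0
  have hd1' : (0 : ℝ) < d1 := by exact_mod_cast hd1
  set M : ℝ := ((max (En i n0 d0 * d1) (En i n1 d1 * d0) : ℕ) : ℝ) with hM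
  have hc : (0 : ℝ) < 1000 * d0 * d1 := by positivity
  have e0 : |((hG i : ℚ) : ℝ) - vl (n0, d0)| * (1000 * d0 * d1) = ((En i n0 d0 * d1 : ℕ) : ℝ) := by
    rw [Nat.cast_mul, En_cast, hG_eq]
    have : (hN i : ℝ) * d0 - 1000 * n0 = ((hN i : ℝ) / 1000 - vl (n0, d0)) * (1000 * d0) := by
      unfold vl; field_simp
    rw [this, abs_mul, abs_of_pos (by positivity : (0 : ℝ) < 1000 * d0)]
    ring
  have e1 : |((hG i : ℚ) : ℝ) - vl (n1, d1)| * (1000 * d0 * d1) = ((En i n1 d1 * d0 : ℕ) : ℝ) := by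
    rw [Nat.cast_mul, En_cast, hG_eq]
    have : (hN i : ℝ) * d1 - 1000 * n1 = ((hN i : ℝ) / 1000 - vl (n1, d1)) * (1000 * d1) := by
      unfold vl; field_simp
    rw [this, abs_mul, abs_of_pos (by positivity : (0 : ℝ) < 1000 * d1)]
    ring
  rw [← le_div_iff₀ hc]
  apply abs_max h0 h1
  · rw [le_div_iff₀ hc, e0, hM]
    exact_mod_cast le_max_left _ _
  · rw [le_div_iff₀ hc, e1, hM]
    exact_mod_cast le_max_right _ _

theorem LNz_sound {n0 d0 n1 d1 : ℕ} (hd0 : 0 < d0) (hd1 : 0 < d1) {v : ℝ}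
    (h0 : vl (n0, d0) ≤ v) (h1 : v ≤ vl (n1, d1)) : ∀ b : ℕ,
    (∏ i ∈ Finset.range b, |((hG i : ℚ) : ℝ) - v| ^ (2 * sG i)) * (1000 * (d0 : ℝ) * d1) ^ (2 * SNz b) ≤
      ((LNz n0 d0 n1 d1 b : ℕ) : ℝ) := by
  intro b
  induction b with
  | zero => simp [LNz, SNz]
  | succ b ih =>
    rw [Finset.prod_range_succ]
    have hS : SNz (b + 1) = SNz b + sG b := rfl
    have hL : LNz n0 d0 n1 d1 (b + 1) = LNz n0 d0 n1 d1 b *
      (max (En b n0 d0 * d1) (En b n1 d1 * d0)) ^ (2 * sG b) := rfl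
    rw [hS, hL, mul_add, pow_add, Nat.cast_mul, Nat.cast_pow]
    have hf := factorz b hd0 hd1 h0 h1
    calc (∏ i ∈ Finset.range b, |((hG i : ℚ) : ℝ) - v| ^ (2 * sG i)) * |((hG b : ℚ) : ℝ) - v| ^ (2 * sG b) *
          ((1000 * (d0 : ℝ) * d1) ^ (2 * SNz b) * (1000 * (d0 : ℝ) * d1) ^ (2 * sG b))
        = ((∏ i ∈ Finset.range b, |((hG i : ℚ) : ℝ) - v| ^ (2 * sG i)) *
          (1000 * (d0 : ℝ) * d1) ^ (2 * SNz b)) *
          (|((hG b : ℚ) : ℝ) - v| * (1000 * (d0 : ℝ) * d1)) ^ (2 * sG b) := by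
          rw [mul_pow |((hG b : ℚ) : ℝ) - v|]; ring
      _ ≤ _ := by
          apply mul_le_mul ih _ (by positivity) (Nat.cast_nonneg _)
          exact pow_le_pow_left₀ (by positivity) hf _

theorem FXpG_eq (v : ℝ) : FXpG v = Q KK0 v := by
  unfold FXpG Q FXG KK0 K1 K6 K2
  simp

theorem posK1 : Pos K1 := by unfold Pos; decide
theorem posK6 : Pos K6 := by unfold Pos; decide
theorem posK2 : Pos K2 := by unfold Pos; decide
theorem posKK0 : Pos KK0 := by unfold Pos; decide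

theorem chkIz_spec {b : ℕ} {p q : ℕ × ℕ} (h : chkIz b p q = true) :
    0 < p.2 ∧ 0 < q.2 ∧ 2 ^ tG b * LNz p.1 p.2 q.1 q.2 b * P2 KK0 p.2 ≤
      P1 KK0 p.1 p.2 * (1000 * p.2 * q.2) ^ (2 * SNz b) := by
  unfold chkIz at h
  rw [Bool.and_eq_true, Bool.and_eq_true] at h
  exact ⟨of_decide_eq_true h.1.1, of_decide_eq_true h.1.2, of_decide_eq_true h.2⟩

theorem real_intervalz {L D P2' LN' T P1' Q' : ℝ} (hL : L * D ≤ LN') (hQ : P1' ≤ Q' * P2')
    (hP2 : 0 < P2') (hD : 0 < D) (hT : 0 ≤ T) (hle : T * LN' * P2' ≤ P1' * D) : T * L ≤ Q' := by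
  have hc : 0 < D * P2' := mul_pos hD hP2
  refine le_of_mul_le_mul_right ?_ hc
  calc T * L * (D * P2') = T * (L * D) * P2' := by ring
    _ ≤ T * LN' * P2' := mul_le_mul_of_nonneg_right (mul_le_mul_of_nonneg_left hL hT) hP2.le
    _ ≤ P1' * D := hle
    _ ≤ (Q' * P2') * D := mul_le_mul_of_nonneg_right hQ hD.le
    _ = Q' * (D * P2') := by ring

theorem nat_intervalz (LN' P2' T P1' d0 d1 S : ℕ)
    (h : 2 ^ T * LN' * P2' ≤ P1' * (1000 * d0 * d1) ^ (2 * S)) :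
    2 ^ T * (LN' : ℝ) * (P2' : ℝ) ≤ (P1' : ℝ) * (1000 * (d0 : ℝ) * (d1 : ℝ)) ^ (2 * S) := by
  exact_mod_cast h

theorem intervalz {b : ℕ} {p q : ℕ × ℕ} (h : chkIz b p q = true) {v : ℝ}
    (h0 : vl p ≤ v) (h1 : v ≤ vl q) :
    2 ^ tG b * ∏ i ∈ Finset.range b, |((hG i : ℚ) : ℝ) - v| ^ (2 * sG i) ≤ FXpG v := by
  obtain ⟨n0, d0⟩ := p
  obtain ⟨n1, d1⟩ := q
  obtain ⟨hp, hq, hle⟩ := chkIz_spec h
  have h0' : (0 : ℝ) < d0 := by exact_mod_cast hp
  have h1' : (0 : ℝ) < d1 := by exact_mod_cast hq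
  rw [FXpG_eq]
  exact real_intervalz (LNz_sound hp hq h0 h1 b) (Q_low KK0 posKK0 hp h0)
    (P2_pos KK0 posKK0 hp) (by positivity) (by positivity) (nat_intervalz _ _ _ _ _ _ _ hle)

theorem chainz {b : ℕ} : ∀ (l : List (ℕ × ℕ)) (p : ℕ × ℕ), chkLz b (p :: l) = true →
    ∀ v : ℝ, vl p ≤ v → v < vl ((p :: l).getLast (by simp)) →
    2 ^ tG b * ∏ i ∈ Finset.range b, |((hG i : ℚ) : ℝ) - v| ^ (2 * sG i) ≤ FXpG v := by
  intro l
  induction l with
  | nil =>
    intro p _ v h0 h1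
    simp at h1
    linarith
  | cons q l ih =>
    intro p h v h0 h1
    have h' : chkIz b p q = true ∧ chkLz b (q :: l) = true := by
      have : chkLz b (p :: q :: l) = (chkIz b p q && chkLz b (q :: l)) := rfl
      rw [this, Bool.and_eq_true] at h
      exact h
    rcases le_or_gt v (vl q) with h2 | h2
    · exact intervalz h'.1 h0 h2
    · apply ih q h'.2 v h2.le
      rw [List.getLast_cons (by simp)] at h1
      exact h1

theorem prod_tailz {v : ℝ} (hv : 2 ≤ v) : ∀ b : ℕ,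
    ∏ i ∈ Finset.range b, |((hG i : ℚ) : ℝ) - v| ^ (2 * sG i) ≤ v ^ (2 * SNz b) := by
  intro b
  induction b with
  | zero => simp [SNz]
  | succ b ih =>
    rw [Finset.prod_range_succ]
    have hS : SNz (b + 1) = SNz b + sG b := rfl
    rw [hS, mul_add, pow_add]
    have h1 : |((hG b : ℚ) : ℝ) - v| ≤ v := by
      rw [hG_eq]
      have h2 : ((hN b : ℕ) : ℝ) ≤ 2100 := by exact_mod_cast hN_le b
      have h3 : (0 : ℝ) ≤ hN b := Nat.cast_nonneg _
      rw [abs_le]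
      constructor <;> linarith
    have hv0 : 0 ≤ v := by linarith
    exact mul_le_mul ih (pow_le_pow_left₀ (abs_nonneg _) h1 _) (by positivity) (by positivity)

theorem real_tailz {P v d n T q1 q2 q6 p1 p2 c6 r1 r2 d6 : ℝ} {S Z : ℕ}
    (hS : 2 * S + Z = 144)
    (hv0 : 0 ≤ v) (hd : 0 < d) (hn0 : 0 ≤ n) (hnv : n ≤ v * d)
    (hP : P ≤ v ^ (2 * S))
    (h1 : r1 ≤ q1 * p1) (h2 : r2 ≤ q2 * p2) (h6 : v ^ 144 * d6 ≤ q6 * c6)
    (hp1 : 0 < p1) (hp2 : 0 < p2) (hc6 : 0 < c6) (hr1 : 0 ≤ r1) (hr2 : 0 ≤ r2)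
    (hq1 : 0 < q1) (hq2 : 0 < q2) (hd6 : 0 ≤ d6) (hT : 0 ≤ T)
    (hle : T * p1 * p2 * c6 * d ^ Z ≤ n ^ Z * r1 * r2 * d6) :
    T * P ≤ q1 * q6 * q2 := by
  refine (mul_le_mul_of_nonneg_left hP hT).trans ?_
  have hc : (0 : ℝ) < p1 * p2 * c6 * d ^ Z := by positivity
  refine le_of_mul_le_mul_right ?_ hc
  have hnZ : n ^ Z ≤ (v * d) ^ Z := pow_le_pow_left₀ hn0 hnv Z
  have hvS : 0 ≤ v ^ (2 * S) := by positivity
  have hdZ : 0 ≤ d ^ Z := by positivity
  have e3 : v ^ (2 * S) * (v * d) ^ Z = v ^ 144 * d ^ Z := by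
    rw [← hS, pow_add, mul_pow]; ring
  calc T * v ^ (2 * S) * (p1 * p2 * c6 * d ^ Z)
      = v ^ (2 * S) * (T * p1 * p2 * c6 * d ^ Z) := by ring
    _ ≤ v ^ (2 * S) * (n ^ Z * r1 * r2 * d6) :=
        mul_le_mul_of_nonneg_left hle hvS
    _ ≤ v ^ (2 * S) * ((v * d) ^ Z * (q1 * p1) * (q2 * p2) * d6) := by
        apply mul_le_mul_of_nonneg_left _ hvS
        apply mul_le_mul_of_nonneg_right _ hd6
        have hvd : 0 ≤ (v * d) ^ Z := pow_nonneg (by positivity) _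
        apply mul_le_mul _ h2 hr2 (by positivity)
        exact mul_le_mul hnZ h1 hr1 (by positivity)
    _ = (q1 * p1) * (q2 * p2) * d6 * (v ^ (2 * S) * (v * d) ^ Z) := by ring
    _ = d ^ Z * (q1 * p1) * (q2 * p2) * (v ^ 144 * d6) := by
        rw [e3]; ring
    _ ≤ d ^ Z * (q1 * p1) * (q2 * p2) * (q6 * c6) := by
        apply mul_le_mul_of_nonneg_left h6
        positivity
    _ = _ := by ring

theorem nat_tailz (p1 p2 c6 d Z T n r1 r2 d6 : ℕ)
    (h : 2 ^ T * p1 * p2 * c6 * d ^ Z ≤ n ^ Z * r1 * r2 * d6) :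
    2 ^ T * (p1 : ℝ) * (p2 : ℝ) * (c6 : ℝ) * (d : ℝ) ^ Z ≤
      (n : ℝ) ^ Z * (r1 : ℝ) * (r2 : ℝ) * (d6 : ℝ) := by
  exact_mod_cast h

theorem chkTz_spec {b : ℕ} {p : ℕ × ℕ} (h : chkTz b p = true) :
    0 < p.2 ∧ 2 * p.2 ≤ p.1 ∧ 2 ^ tG b * P2 K1 p.2 * P2 K2 p.2 * C6 K6 * p.2 ^ (144 - 2 * SNz b) ≤
      p.1 ^ (144 - 2 * SNz b) * P1 K1 p.1 p.2 * P1 K2 p.1 p.2 * D6 K6 := by
  unfold chkTz at h
  rw [Bool.and_eq_true, Bool.and_eq_true] at h
  exact ⟨of_decide_eq_true h.1.1, of_decide_eq_true h.1.2, of_decide_eq_true h.2⟩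

theorem tailz {b : ℕ} (hS : 2 * SNz b ≤ 144) {p : ℕ × ℕ} (h : chkTz b p = true) {v : ℝ}
    (h0 : vl p ≤ v) :
    2 ^ tG b * ∏ i ∈ Finset.range b, |((hG i : ℚ) : ℝ) - v| ^ (2 * sG i) ≤ FXpG v := by
  obtain ⟨n, d⟩ := p
  obtain ⟨hp, hq, hle⟩ := chkTz_spec h
  have hd : (0 : ℝ) < d := by exact_mod_cast hp
  have hnv : (n : ℝ) ≤ v * d := by
    have : (n : ℝ) / d ≤ v := h0
    rwa [div_le_iff₀ hd] at this
  have hv : 2 ≤ v := by
    have h1 : (2 : ℝ) * d ≤ n := by exact_mod_cast hq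
    have h2 : (2 : ℝ) * d ≤ v * d := h1.trans hnv
    exact le_of_mul_le_mul_right h2 hd
  have hv0 : 0 ≤ v := by linarith
  have q6 := Q_six K6 posK6 hv0
  have hsum : (K6.map fun y => y.2.2).sum = 144 := by decide
  rw [hsum] at q6
  have hFX : FXpG v = Q K1 v * Q K6 v * Q K2 v := by
    rw [FXpG_eq]
    unfold KK0
    rw [Q_append, Q_append]
  rw [hFX]
  have hZ' : 2 * SNz b + (144 - 2 * SNz b) = 144 := by omega
  exact real_tailz hZ' hv0 hd (Nat.cast_nonneg _) hnv (prod_tailz hv b)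
    (Q_low K1 posK1 hp h0) (Q_low K2 posK2 hp h0) q6
    (P2_pos K1 posK1 hp) (P2_pos K2 posK2 hp) (C6_pos K6 posK6) (Nat.cast_nonneg _) (Nat.cast_nonneg _)
    (Q_pos K1 posK1 hv0) (Q_pos K2 posK2 hv0) (Nat.cast_nonneg _) (by positivity)
    (nat_tailz _ _ _ _ _ _ _ _ _ _ hle)

theorem cz1 : chkLz 1 bz1 = true := by decide +kernel
theorem cz2 : chkLz 2 bz2 = true := by decide +kernel
theorem cz3 : chkLz 3 bz3 = true := by decide +kernel
theorem tz1 : chkTz 1 (bz1.getLast (by decide)) = true := by decide +kernel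
theorem tz2 : chkTz 2 (bz2.getLast (by decide)) = true := by decide +kernel
theorem tz3 : chkTz 3 (bz3.getLast (by decide)) = true := by decide +kernel

theorem bothz {b : ℕ} (hS : 2 * SNz b ≤ 144) (l : List (ℕ × ℕ)) (p : ℕ × ℕ)
    (hp : p.1 = 0) (h1 : chkLz b (p :: l) = true)
    (h2 : chkTz b ((p :: l).getLast (by simp)) = true) {v : ℝ} (hv : 0 ≤ v) :
    2 ^ tG b * ∏ i ∈ Finset.range b, |((hG i : ℚ) : ℝ) - v| ^ (2 * sG i) ≤ FXpG v := by
  rcases lt_or_ge v (vl ((p :: l).getLast (by simp))) with h | h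
  · apply chainz l p h1 v _ h
    unfold vl
    rw [hp]
    simpa using hv
  · exact tailz hS h2 h

end GC

open GC

/-- **certificate** -/
theorem G3_cert (b : ℕ) (hb : b ≤ 3) (v : ℝ) (hv : 0 ≤ v) :
    2 ^ tG b * ∏ i ∈ Finset.range b, |((hG i : ℚ) : ℝ) - v| ^ (2 * sG i) ≤ FXpG v := by
  interval_cases b
  · rw [FXpG_eq]
    have h : (1 : ℝ) ≤ Q KK0 v := by
      have := Q_low KK0 posKK0 (n := 0) (d := 1) one_pos (v := v) (by unfold vl; simpa using hv)
      have e : P1 KK0 0 1 = P2 KK0 1 := by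
        unfold P1 P2
        simp
      rw [e] at this
      have hp := P2_pos KK0 posKK0 one_pos
      have h2 : 1 * (P2 KK0 1 : ℝ) ≤ Q KK0 v * P2 KK0 1 := by rw [one_mul]; exact this
      exact le_of_mul_le_mul_right h2 hp
    simpa [tG] using h
  · exact bothz (by decide) _ _ rfl cz1 tz1 hv
  · exact bothz (by decide) _ _ rfl cz2 tz2 hv
  · exact bothz (by decide) _ _ rfl cz3 tz3 hv

end Pool.Agent.QG.LG
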