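import Pool.Agent.H383.QG.GDefs

/-!
# G4: the rows (adaptation of `Pool/Agent/H383/Z34/G4.lean`)
-/

open Polynomial Filter Topology

namespace Pool.Agent.QG.LG

noncomputable section

namespace G4

/-- the linear polynomial `x - c` -/
def Lin (n σ : ℕ) : ℚ[X] := X - C (cq n σ)

/-- the node polynomials -/
def QB (n σ b : ℕ) : ℚ[X] := qG n σ (hG b)

lemma Lin_monic (n σ : ℕ) : (Lin n σ).Monic := monic_X_sub_C _

lemma Lin_deg (n σ : ℕ) : (Lin n σ).natDegree = 1 := natDegree_X_sub_C _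

lemma qG_aux (n σ : ℕ) (h : ℚ) : (qG n σ h).Monic ∧ (qG n σ h).natDegree = 2 := by
  have h1 : (Lin n σ ^ 2).Monic := (Lin_monic n σ).pow 2
  have h2 : (Lin n σ ^ 2).natDegree = 2 := by rw [(Lin_monic n σ).natDegree_pow, Lin_deg]
  have h3 : (C (h * (n : ℚ) ^ 2) : ℚ[X]).natDegree < (Lin n σ ^ 2).natDegree := by
    rw [h2, natDegree_C]; norm_num
  have e : qG n σ h = Lin n σ ^ 2 + C (h * (n : ℚ) ^ 2) := rfl
  rw [e]
  refine ⟨h1.add_of_left (degree_lt_degree h3), ?_⟩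
  rw [natDegree_add_eq_left_of_natDegree_lt h3, h2]

lemma QB_monic (n σ b : ℕ) : (QB n σ b).Monic := (qG_aux _ _ _).1

lemma QB_deg (n σ b : ℕ) : (QB n σ b).natDegree = 2 := (qG_aux _ _ _).2

/-- half the offsets -/
def ho (b : ℕ) : ℕ := ∑ i ∈ Finset.range b, sG i

/-- the monic polynomials -/
def PA (n σ N b j : ℕ) : ℚ[X] :=
  (∏ i ∈ Finset.range b, QB n σ i ^ (sG i * N)) *
    (if b = 3 then Lin n σ ^ j else QB n σ b ^ (j / 2) * Lin n σ ^ (j % 2))

lemma PA_monic (n σ N b j : ℕ) : (PA n σ N b j).Monic := by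
  unfold PA
  refine (monic_prod_of_monic _ _ fun i _ => (QB_monic n σ i).pow _).mul ?_
  split_ifs
  · exact (Lin_monic n σ).pow _
  · exact ((QB_monic n σ b).pow _).mul ((Lin_monic n σ).pow _)

lemma PA_deg (n σ N b j : ℕ) : (PA n σ N b j).natDegree = 2 * (ho b * N) + j := by
  unfold PA
  have h1 : (∏ i ∈ Finset.range b, QB n σ i ^ (sG i * N)).Monic :=
    monic_prod_of_monic _ _ fun i _ => (QB_monic n σ i).pow _
  have h4 : ∀ i ∈ Finset.range b, (QB n σ i ^ (sG i * N)).natDegree = sG i * (2 * N) := by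
    intro i _
    rw [(QB_monic n σ i).natDegree_pow, QB_deg]; ring
  have h5 : (∏ i ∈ Finset.range b, QB n σ i ^ (sG i * N)).natDegree = 2 * (ho b * N) := by
    rw [natDegree_prod_of_monic _ _ fun i _ => (QB_monic n σ i).pow _, Finset.sum_congr rfl h4,
      ← Finset.sum_mul]
    unfold ho
    ring
  split_ifs with hb
  · rw [h1.natDegree_mul ((Lin_monic n σ).pow _), h5, (Lin_monic n σ).natDegree_pow, Lin_deg, mul_one]
  · have h2 : (QB n σ b ^ (j / 2)).Monic := (QB_monic n σ b).pow _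
    have h3 : (Lin n σ ^ (j % 2)).Monic := (Lin_monic n σ).pow _
    rw [h1.natDegree_mul (h2.mul h3), h2.natDegree_mul h3, h5, (QB_monic n σ b).natDegree_pow,
      (Lin_monic n σ).natDegree_pow, QB_deg, Lin_deg]
    have : j / 2 * 2 + j % 2 * 1 = j := by omega
    rw [this]

/-- position of an index -/
def loc (N i : ℕ) : ℕ × ℕ :=
  if i < 24 * N then (0, i) else if i < 64 * N then (1, i - 24 * N) else
    if i < 120 * N then (2, i - 64 * N) else (3, i - 120 * N)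

lemma ho0 : ho 0 = 0 := by decide
lemma ho1 : ho 1 = 12 := by decide
lemma ho2 : ho 2 = 32 := by decide
lemma ho3 : ho 3 = 60 := by decide

lemma loc_spec {N i : ℕ} (hi : i < 120 * N + 5) :
    (2 * (ho (loc N i).1 * N) + (loc N i).2 = i) ∧
      (((loc N i).1 ≤ 2 ∧ (loc N i).2 < 2 * (sG (loc N i).1 * N)) ∨
        ((loc N i).1 = 3 ∧ (loc N i).2 < 5)) := by
  unfold loc
  split_ifs with h1 h2 h3
  · refine ⟨?_, Or.inl ⟨by omega, ?_⟩⟩
    · simp only [ho0]; omega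
    · show i < 2 * (12 * N); omega
  · refine ⟨?_, Or.inl ⟨by omega, ?_⟩⟩
    · simp only [ho1]; omega
    · show i - 24 * N < 2 * (20 * N); omega
  · refine ⟨?_, Or.inl ⟨by omega, ?_⟩⟩
    · simp only [ho2]; omega
    · show i - 64 * N < 2 * (28 * N); omega
  · refine ⟨?_, Or.inr ⟨rfl, ?_⟩⟩
    · simp only [ho3]; omega
    · show i - 120 * N < 5; omega

lemma sum_loc (N : ℕ) (f : ℕ → ℕ → ℝ) :
    ∑ i ∈ Finset.range (120 * N + 5), f (loc N i).1 (loc N i).2 =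
      (∑ b ∈ Finset.range 3, ∑ j ∈ Finset.range (2 * (sG b * N)), f b j) +
        ∑ j ∈ Finset.range 5, f 3 j := by
  have e : 120 * N + 5 = 24 * N + 40 * N + 56 * N + 5 := by ring
  rw [e, Finset.sum_range_add, Finset.sum_range_add, Finset.sum_range_add]
  have s0 : 2 * (sG 0 * N) = 24 * N := by show 2 * (12 * N) = 24 * N; ring
  have s1 : 2 * (sG 1 * N) = 40 * N := by show 2 * (20 * N) = 40 * N; ring
  have s2 : 2 * (sG 2 * N) = 56 * N := by show 2 * (28 * N) = 56 * N; ring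
  rw [Finset.sum_range_succ (fun b => ∑ j ∈ Finset.range (2 * (sG b * N)), f b j) 2,
    Finset.sum_range_succ (fun b => ∑ j ∈ Finset.range (2 * (sG b * N)), f b j) 1,
    Finset.sum_range_one, s0, s1, s2]
  congr 1
  · congr 1
    · congr 1
      · apply Finset.sum_congr rfl
        intro i hi
        rw [Finset.mem_range] at hi
        unfold loc
        rw [if_pos hi]
      · apply Finset.sum_congr rfl
        intro i hi
        rw [Finset.mem_range] at hi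
        unfold loc
        rw [if_neg (by omega), if_pos (by omega), Nat.add_sub_cancel_left]
    · apply Finset.sum_congr rfl
      intro i hi
      rw [Finset.mem_range] at hi
      unfold loc
      rw [if_neg (by omega), if_neg (by omega), if_pos (by omega)]
      congr 1
      show 24 * N + 40 * N + i - 64 * N = i
      omega
  · apply Finset.sum_congr rfl
    intro i hi
    rw [Finset.mem_range] at hi
    unfold loc
    rw [if_neg (by omega), if_neg (by omega), if_neg (by omega)]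
    congr 1
    show 24 * N + 40 * N + 56 * N + i - 120 * N = i
    omega

/-- the size on the line, normalised -/
def NG (n σ : ℕ) (y : ℝ) : ℝ := WL n σ y * (n : ℝ) ^ (10 * n)

/-- the weight -/
def WW (n σ : ℕ) (y : ℝ) : ℝ :=
  NG n σ y * Real.exp (-(2 * Real.pi * |y|)) * (1 + y ^ 2) ^ 6

lemma NG_nonneg (n σ : ℕ) (y : ℝ) : 0 ≤ NG n σ y := by unfold NG WL; positivity

lemma WW_nonneg (n σ : ℕ) (y : ℝ) : 0 ≤ WW n σ y := by
  unfold WW
  have := NG_nonneg n σ y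
  positivity

lemma ho_succ (b : ℕ) : ho (b + 1) = ho b + sG b := by
  unfold ho; rw [Finset.sum_range_succ]

/-- the statement `G3_cert` -/
def Cert : Prop := ∀ (b : ℕ), b ≤ 3 → ∀ v : ℝ, 0 ≤ v →
  (2 : ℝ) ^ tG b * (∏ i ∈ Finset.range b, |((hG i : ℚ) : ℝ) - v| ^ (2 * sG i)) ≤ FXpG v

/-- product of the full blocks -/
def FB (n σ N b : ℕ) (y : ℝ) : ℝ :=
  ∏ i ∈ Finset.range b, (‖aeval (zc n σ y) (QB n σ i)‖ ^ 2) ^ (sG i * N)

lemma FB_nonneg (n σ N b : ℕ) (y : ℝ) : 0 ≤ FB n σ N b y := by unfold FB; positivity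

lemma FB_succ (n σ N b : ℕ) (y : ℝ) :
    FB n σ N (b + 1) y = FB n σ N b y * (‖aeval (zc n σ y) (QB n σ b)‖ ^ 2) ^ (sG b * N) := by
  unfold FB; rw [Finset.prod_range_succ]

lemma Lin_eval (n σ : ℕ) (y : ℝ) : aeval (zc n σ y) (Lin n σ) = (y : ℂ) * Complex.I := by
  unfold Lin zc cq
  simp only [map_sub, aeval_X, aeval_C, eq_ratCast]
  push_cast
  ring

lemma Lin_norm (n σ : ℕ) (y : ℝ) : ‖aeval (zc n σ y) (Lin n σ)‖ ^ 2 = y ^ 2 := by
  rw [Lin_eval, norm_mul, Complex.norm_I, mul_one, Complex.norm_real, Real.norm_eq_abs, sq_abs]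

lemma qG_norm {n : ℕ} (hn : 1 ≤ n) (σ : ℕ) (y : ℝ) (h : ℚ) :
    ‖aeval (zc n σ y) (qG n σ h)‖ = (n : ℝ) ^ 2 * |(h : ℝ) - (y / n) ^ 2| := by
  have hn' : (n : ℝ) ≠ 0 := by exact_mod_cast (by omega : n ≠ 0)
  have e : aeval (zc n σ y) (qG n σ h) = (((n : ℝ) ^ 2 * ((h : ℝ) - (y / n) ^ 2) : ℝ) : ℂ) := by
    have e1 : qG n σ h = Lin n σ ^ 2 + C (h * (n : ℚ) ^ 2) := rfl
    rw [e1, map_add, map_pow, Lin_eval, aeval_C, mul_pow, Complex.I_sq]
    have e2 : (n : ℝ) ^ 2 * ((h : ℝ) - (y / n) ^ 2) = (h : ℝ) * (n : ℝ) ^ 2 - y ^ 2 := by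
      field_simp
    rw [e2, eq_ratCast]
    push_cast
    ring
  rw [e, Complex.norm_real, Real.norm_eq_abs, abs_mul, abs_of_nonneg (by positivity)]

lemma FB_le (hG3 : Cert) {n : ℕ} (hn : 1 ≤ n) (σ N b : ℕ) (hb : b ≤ 3) (y : ℝ) :
    FB n σ N b y * 2 ^ (tG b * N) ≤ (n : ℝ) ^ (4 * (ho b * N)) * FXpG ((y / n) ^ 2) ^ N := by
  have hv : 0 ≤ (y / n) ^ 2 := by positivity
  have h2 : FB n σ N b y = (n : ℝ) ^ (4 * (ho b * N)) *
        (∏ i ∈ Finset.range b, |((hG i : ℚ) : ℝ) - (y / n) ^ 2| ^ (2 * sG i)) ^ N := by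
    unfold FB
    have : ∀ i ∈ Finset.range b, (‖aeval (zc n σ y) (QB n σ i)‖ ^ 2) ^ (sG i * N) =
        ((n : ℝ) ^ (4 * N)) ^ sG i * (|((hG i : ℚ) : ℝ) - (y / n) ^ 2| ^ (2 * sG i)) ^ N := by
      intro i _
      unfold QB
      rw [qG_norm hn, mul_pow, mul_pow, ← pow_mul, ← pow_mul, ← pow_mul, ← pow_mul, ← pow_mul]
      congr 2
      · ring
      · ring
    rw [Finset.prod_congr rfl this, Finset.prod_mul_distrib, Finset.prod_pow,
      Finset.prod_pow_eq_pow_sum, ← pow_mul]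
    unfold ho
    congr 2
    ring
  have hG : 0 ≤ ∏ i ∈ Finset.range b, |((hG i : ℚ) : ℝ) - (y / n) ^ 2| ^ (2 * sG i) :=
    Finset.prod_nonneg fun i _ => by positivity
  have h3 := hG3 b hb ((y / n) ^ 2) hv
  have h4 := pow_le_pow_left₀ (by positivity) h3 N
  rw [mul_pow, ← pow_mul] at h4
  rw [h2]
  calc (n : ℝ) ^ (4 * (ho b * N)) *
        (∏ i ∈ Finset.range b, |((Pool.Agent.QG.LG.hG i : ℚ) : ℝ) - (y / n) ^ 2| ^ (2 * sG i)) ^ N *
        2 ^ (tG b * N)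
      = (n : ℝ) ^ (4 * (ho b * N)) * (2 ^ (tG b * N) *
        (∏ i ∈ Finset.range b, |((Pool.Agent.QG.LG.hG i : ℚ) : ℝ) - (y / n) ^ 2| ^ (2 * sG i)) ^ N) := by
        ring
    _ ≤ _ := mul_le_mul_of_nonneg_left h4 (by positivity)

/-- logarithm of the corner bound -/
def la (C : ℝ) (K n N b : ℕ) : ℝ :=
  Real.log C + K * Real.log n + n * PhiG + 4 * (ho b * N) * Real.log n - tG b * N * Real.log 2

/-- the estimate of `G1_main` -/
def Hyp (σ : ℕ) (C : ℝ) (K : ℕ) : Prop := ∀ N : ℕ, 1 ≤ N → ∀ n : ℕ, n = 24 * N + 1 → ∀ y : ℝ,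
    NG n σ y * Real.exp (-(2 * Real.pi * |y|)) * (1 + y ^ 2) ^ 6 * FXpG ((y / n) ^ 2) ^ N ≤
      C * (n : ℝ) ^ K * Real.exp (n * PhiG)

lemma corner (hG3 : Cert) {σ : ℕ} {C : ℝ} {K : ℕ} (hC : 0 < C) (h : Hyp σ C K) {n N : ℕ} (hN : 1 ≤ N) (hn : n = 24 * N + 1)
    {b : ℕ} (hb : b ≤ 3) (y : ℝ) :
    WW n σ y * FB n σ N b y ≤ Real.exp (la C K n N b) := by
  have h0 : (0 : ℝ) < n := by exact_mod_cast (by omega : 0 < n)
  have h1 := h N hN n hn y
  have h2 := FB_le hG3 (n := n) (by omega) σ N b hb y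
  have e : Real.exp (la C K n N b) * 2 ^ (tG b * N) =
      (C * (n : ℝ) ^ K * Real.exp (n * PhiG)) * (n : ℝ) ^ (4 * (ho b * N)) := by
    unfold la
    rw [Real.exp_sub, Real.exp_add, Real.exp_add, Real.exp_add, Real.exp_log hC]
    have e1 : Real.exp (K * Real.log n) = (n : ℝ) ^ K := by
      rw [Real.exp_nat_mul, Real.exp_log h0]
    have e2 : Real.exp (4 * (ho b * N) * Real.log n) = (n : ℝ) ^ (4 * (ho b * N)) := by
      have : (4 * (ho b * N) * Real.log n : ℝ) = ((4 * (ho b * N) : ℕ) : ℝ) * Real.log n := by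
        push_cast; ring
      rw [this, Real.exp_nat_mul, Real.exp_log h0]
    have e3 : Real.exp (tG b * N * Real.log 2) = (2 : ℝ) ^ (tG b * N) := by
      have : (tG b * N * Real.log 2 : ℝ) = ((tG b * N : ℕ) : ℝ) * Real.log 2 := by
        push_cast; ring
      rw [this, Real.exp_nat_mul, Real.exp_log (by norm_num)]
    rw [e1, e2, e3]
    field_simp
  have hpos : (0 : ℝ) < 2 ^ (tG b * N) := by positivity
  refine le_of_mul_le_mul_right ?_ hpos
  rw [e]
  calc WW n σ y * FB n σ N b y * 2 ^ (tG b * N) = WW n σ y * (FB n σ N b y * 2 ^ (tG b * N)) := by ring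
    _ ≤ WW n σ y * ((n : ℝ) ^ (4 * (ho b * N)) * FXpG ((y / n) ^ 2) ^ N) :=
        mul_le_mul_of_nonneg_left h2 (WW_nonneg n σ y)
    _ = (WW n σ y * FXpG ((y / n) ^ 2) ^ N) * (n : ℝ) ^ (4 * (ho b * N)) := by ring
    _ ≤ _ := mul_le_mul_of_nonneg_right h1 (by positivity)

lemma interp {a q a0 b0 : ℝ} (ha : 0 ≤ a) (hq : 0 ≤ q) {S k : ℕ} (hS : 0 < S) (hk : k ≤ S)
    (h1 : a ≤ Real.exp a0) (h2 : a * q ^ S ≤ Real.exp b0) :
    a * q ^ k ≤ Real.exp ((1 - (k : ℝ) / S) * a0 + (k : ℝ) / S * b0) := by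
  have hS' : (S : ℝ) ≠ 0 := by exact_mod_cast hS.ne'
  apply le_of_pow_le_pow_left₀ hS.ne' (Real.exp_pos _).le
  have e1 : Real.exp ((1 - (k : ℝ) / S) * a0 + (k : ℝ) / S * b0) ^ S =
      Real.exp a0 ^ (S - k) * Real.exp b0 ^ k := by
    rw [← Real.exp_nat_mul, ← Real.exp_nat_mul, ← Real.exp_nat_mul, ← Real.exp_add]
    congr 1
    rw [Nat.cast_sub hk]
    field_simp
  have e2 : (a * q ^ k) ^ S = a ^ (S - k) * (a * q ^ S) ^ k := by
    rw [mul_pow, mul_pow, ← pow_mul, ← pow_mul, ← mul_assoc, ← pow_add, Nat.sub_add_cancel hk,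
      mul_comm k S]
  rw [e1, e2]
  have h3 : a ^ (S - k) ≤ Real.exp a0 ^ (S - k) := pow_le_pow_left₀ ha h1 _
  have h4 : (a * q ^ S) ^ k ≤ Real.exp b0 ^ k := pow_le_pow_left₀ (by positivity) h2 _
  exact mul_le_mul h3 h4 (by positivity) (by positivity)

/-- the exponent of the bound -/
def al (C : ℝ) (K n N b j : ℕ) : ℝ :=
  if b = 3 then la C K n N 3 else
    (1 - ((j / 2 : ℕ) : ℝ) / ((sG b * N : ℕ) : ℝ)) * la C K n N b +
      ((j / 2 : ℕ) : ℝ) / ((sG b * N : ℕ) : ℝ) * la C K n N (b + 1)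

lemma PA_norm (n σ N b j : ℕ) (hb : b ≠ 3) (y : ℝ) :
    ‖aeval (zc n σ y) (PA n σ N b j)‖ ^ 2 =
      FB n σ N b y * (‖aeval (zc n σ y) (QB n σ b)‖ ^ 2) ^ (j / 2) * (y ^ 2) ^ (j % 2) := by
  unfold PA FB
  rw [if_neg hb, ← Lin_norm n σ y, map_mul, map_mul, map_prod, norm_mul, norm_mul, norm_prod, mul_pow,
    mul_pow, ← Finset.prod_pow, mul_assoc]
  congr 1
  · apply Finset.prod_congr rfl
    intro i _
    rw [map_pow, norm_pow, ← pow_mul, ← pow_mul, mul_comm]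
  · congr 1
    · rw [map_pow, norm_pow, ← pow_mul, ← pow_mul, mul_comm]
    · rw [map_pow, norm_pow, ← pow_mul, ← pow_mul, mul_comm]

lemma PA_norm3 (n σ N j : ℕ) (y : ℝ) :
    ‖aeval (zc n σ y) (PA n σ N 3 j)‖ ^ 2 = FB n σ N 3 y * (y ^ 2) ^ j := by
  unfold PA FB
  rw [if_pos rfl, ← Lin_norm n σ y, map_mul, map_prod, norm_mul, norm_prod, mul_pow, ← Finset.prod_pow]
  congr 1
  · apply Finset.prod_congr rfl
    intro i _
    rw [map_pow, norm_pow, ← pow_mul, ← pow_mul, mul_comm]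
  · rw [map_pow, norm_pow, ← pow_mul, ← pow_mul, mul_comm]

lemma sG_pos (b : ℕ) : 0 < sG b := by
  unfold sG
  split <;> norm_num

/-- the condition on the position -/
def Pos (N b j : ℕ) : Prop := (b ≤ 2 ∧ j < 2 * (sG b * N)) ∨ (b = 3 ∧ j < 5)

lemma ypow {y : ℝ} {k : ℕ} (hk : k ≤ 4) : (1 + y ^ 2) * (y ^ 2) ^ k ≤ (1 + y ^ 2) ^ 6 := by
  have h9 : (1 : ℝ) ≤ 1 + y ^ 2 := by nlinarith [sq_nonneg y]
  have h10 : (y ^ 2) ^ k ≤ (1 + y ^ 2) ^ k := pow_le_pow_left₀ (sq_nonneg y) (by linarith) k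
  calc (1 + y ^ 2) * (y ^ 2) ^ k ≤ (1 + y ^ 2) * (1 + y ^ 2) ^ k :=
        mul_le_mul_of_nonneg_left h10 (by positivity)
    _ = (1 + y ^ 2) ^ (k + 1) := by ring
    _ ≤ (1 + y ^ 2) ^ 6 := pow_le_pow_right₀ h9 (by omega)

lemma PA_bound (hG3 : Cert) {σ : ℕ} {C : ℝ} {K : ℕ} (hC : 0 < C) (h : Hyp σ C K) {n N : ℕ} (hN : 1 ≤ N)
    (hn : n = 24 * N + 1) {b j : ℕ} (hp : Pos N b j) (y : ℝ) :
    NG n σ y * Real.exp (-(2 * Real.pi * |y|)) * (1 + y ^ 2) *
      ‖aeval (zc n σ y) (PA n σ N b j)‖ ^ 2 ≤ Real.exp (al C K n N b j) := by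
  set T := NG n σ y * Real.exp (-(2 * Real.pi * |y|)) with hT
  have hT0 : 0 ≤ T := mul_nonneg (NG_nonneg n σ y) (Real.exp_pos _).le
  have hWW : WW n σ y = T * (1 + y ^ 2) ^ 6 := rfl
  set F := FB n σ N b y with hF
  have hF0 : 0 ≤ F := FB_nonneg n σ N b y
  rcases hp with ⟨hb, hj⟩ | ⟨rfl, hj⟩
  · have hb3 : b ≠ 3 := by omega
    have hk : j / 2 ≤ sG b * N := by omega
    have hS : 0 < sG b * N := Nat.mul_pos (sG_pos b) hN
    have c1 := corner hG3 hC h hN hn (b := b) (by omega) y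
    have c2 := corner hG3 hC h hN hn (b := b + 1) (by omega) y
    rw [FB_succ, ← mul_assoc] at c2
    have h3 := interp (mul_nonneg (WW_nonneg n σ y) (FB_nonneg n σ N b y))
      (sq_nonneg ‖aeval (zc n σ y) (QB n σ b)‖) hS hk c1 c2
    rw [PA_norm _ _ _ _ _ hb3, ← hF]
    unfold al
    rw [if_neg hb3]
    refine le_trans ?_ h3
    rw [← hF]
    set G := (‖aeval (zc n σ y) (QB n σ b)‖ ^ 2) ^ (j / 2) with hG
    have hG0 : 0 ≤ G := by rw [hG]; positivity
    calc T * (1 + y ^ 2) * (F * G * (y ^ 2) ^ (j % 2))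
        = T * ((1 + y ^ 2) * (y ^ 2) ^ (j % 2)) * F * G := by ring
      _ ≤ T * (1 + y ^ 2) ^ 6 * F * G := by
          apply mul_le_mul_of_nonneg_right _ hG0
          apply mul_le_mul_of_nonneg_right _ hF0
          exact mul_le_mul_of_nonneg_left (ypow (by omega)) hT0
      _ = WW n σ y * F * G := by rw [hWW]
  · have c1 := corner hG3 hC h hN hn (b := 3) (by omega) y
    rw [PA_norm3, ← hF]
    unfold al
    rw [if_pos rfl]
    refine le_trans ?_ c1
    calc T * (1 + y ^ 2) * (F * (y ^ 2) ^ j)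
        = T * ((1 + y ^ 2) * (y ^ 2) ^ j) * F := by ring
      _ ≤ T * (1 + y ^ 2) ^ 6 * F := by
          apply mul_le_mul_of_nonneg_right _ hF0
          exact mul_le_mul_of_nonneg_left (ypow (by omega)) hT0
      _ = WW n σ y * F := by rw [hWW]

/-- sum of the interpolation exponents of one block -/
lemma sum_half (S : ℕ) (f : ℕ → ℝ) :
    ∑ j ∈ Finset.range (2 * S), f (j / 2) = 2 * ∑ k ∈ Finset.range S, f k := by
  induction S with
  | zero => simp
  | succ S ih =>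
    rw [show 2 * (S + 1) = 2 * S + 1 + 1 by ring, Finset.sum_range_succ, Finset.sum_range_succ, ih,
      Finset.sum_range_succ]
    have e1 : 2 * S / 2 = S := by omega
    have e2 : (2 * S + 1) / 2 = S := by omega
    rw [e1, e2]
    ring

lemma sum_k (S : ℕ) : 2 * ∑ k ∈ Finset.range S, (k : ℝ) = (S : ℝ) * (S - 1) := by
  induction S with
  | zero => simp
  | succ S ih =>
    rw [Finset.sum_range_succ, mul_add, ih]
    push_cast
    ring

lemma tau_block (S : ℕ) (hS : 0 < S) (t t' : ℝ) :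
    ∑ j ∈ Finset.range (2 * S), (t + ((j / 2 : ℕ) : ℝ) / (S : ℝ) * (t' - t)) =
      S * (t + t') - (t' - t) := by
  have hS' : (0 : ℝ) < S := by exact_mod_cast hS
  rw [sum_half S (fun k => t + (k : ℝ) / S * (t' - t)), Finset.sum_add_distrib, Finset.sum_const,
    Finset.card_range, nsmul_eq_mul, ← Finset.sum_mul, ← Finset.sum_div, mul_add]
  have e : 2 * ((∑ k ∈ Finset.range S, (k : ℝ)) / S * (t' - t)) = (S - 1) * (t' - t) := by
    have := sum_k S
    have e1 : 2 * ((∑ k ∈ Finset.range S, (k : ℝ)) / S * (t' - t)) =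
        (2 * ∑ k ∈ Finset.range S, (k : ℝ)) / S * (t' - t) := by ring
    rw [e1, this]
    field_simp
  rw [e]
  ring

/-- the part of the exponent with `log 2` -/
def ta (N b j : ℕ) : ℝ := if b = 3 then 0 else
  N * Real.log 2 * ((tG b : ℝ) + ((j / 2 : ℕ) : ℝ) / ((sG b * N : ℕ) : ℝ) * ((tG (b + 1) : ℝ) - tG b))

lemma al_le {C : ℝ} {K n N b j i : ℕ} (hN : 1 ≤ N) (hp : Pos N b j)
    (hi : 2 * (ho b * N) + j = i) :
    al C K n N b j ≤ Real.log C + K * Real.log n + n * PhiG + 2 * (i : ℝ) * Real.log n -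
      ta N b j := by
  have hl : 0 ≤ Real.log n := Real.log_natCast_nonneg n
  have hl2 : 0 ≤ Real.log 2 := Real.log_nonneg (by norm_num)
  rcases hp with ⟨hb, hj⟩ | ⟨rfl, hj⟩
  · have hb3 : b ≠ 3 := by omega
    unfold al ta
    rw [if_neg hb3, if_neg hb3]
    have hs : (sG b : ℝ) ≠ 0 := by exact_mod_cast (sG_pos b).ne'
    have hN' : (N : ℝ) ≠ 0 := by exact_mod_cast (by omega : N ≠ 0)
    have e : (1 - ((j / 2 : ℕ) : ℝ) / ((sG b * N : ℕ) : ℝ)) * la C K n N b +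
        ((j / 2 : ℕ) : ℝ) / ((sG b * N : ℕ) : ℝ) * la C K n N (b + 1) =
        Real.log C + K * Real.log n + n * PhiG +
        2 * ((2 * (ho b * N) : ℕ) + 2 * ((j / 2 : ℕ) : ℝ)) * Real.log n -
        N * Real.log 2 * ((tG b : ℝ) + ((j / 2 : ℕ) : ℝ) / ((sG b * N : ℕ) : ℝ) *
          ((tG (b + 1) : ℝ) - tG b)) := by
      unfold la
      rw [ho_succ]
      push_cast
      field_simp
      ring
    rw [e]
    have h1 : ((2 * (ho b * N) : ℕ) : ℝ) + 2 * ((j / 2 : ℕ) : ℝ) ≤ i := by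
      have : 2 * (ho b * N) + 2 * (j / 2) ≤ i := by omega
      exact_mod_cast this
    have h2 : 2 * (((2 * (ho b * N) : ℕ) : ℝ) + 2 * ((j / 2 : ℕ) : ℝ)) * Real.log n ≤
        2 * (i : ℝ) * Real.log n := by
      apply mul_le_mul_of_nonneg_right _ hl
      linarith
    linarith
  · unfold al ta la
    rw [if_pos rfl, if_pos rfl]
    have h1 : 4 * ((ho 3 : ℝ) * N) * Real.log n ≤ 2 * (i : ℝ) * Real.log n := by
      apply mul_le_mul_of_nonneg_right _ hl
      have : 4 * (ho 3 * N) ≤ 2 * i := by omega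
      exact_mod_cast this
    have h2 : 0 ≤ (tG 3 : ℝ) * N * Real.log 2 := by positivity
    linarith

lemma sum_ta {N : ℕ} (hN : 1 ≤ N) :
    ∑ i ∈ Finset.range (120 * N + 5), ta N (loc N i).1 (loc N i).2 =
      (9724 * N - 57) * (N * Real.log 2) := by
  rw [sum_loc N (ta N)]
  have h3 : ∑ j ∈ Finset.range 5, ta N 3 j = 0 := by
    apply Finset.sum_eq_zero
    intro j _
    unfold ta
    rw [if_pos rfl]
  have hb : ∀ b, b ≠ 3 → ∑ j ∈ Finset.range (2 * (sG b * N)), ta N b j =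
      N * Real.log 2 * (((sG b * N : ℕ) : ℝ) * ((tG b : ℝ) + tG (b + 1)) - ((tG (b + 1) : ℝ) - tG b)) := by
    intro b hb
    rw [← tau_block _ (Nat.mul_pos (sG_pos b) hN), Finset.mul_sum]
    apply Finset.sum_congr rfl
    intro j _
    unfold ta
    rw [if_neg hb]
  rw [h3, Finset.sum_range_succ (fun b => ∑ j ∈ Finset.range (2 * (sG b * N)), ta N b j) 2,
    Finset.sum_range_succ (fun b => ∑ j ∈ Finset.range (2 * (sG b * N)), ta N b j) 1,
    Finset.sum_range_one, hb 0 (by norm_num), hb 1 (by norm_num), hb 2 (by norm_num)]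
  have s0 : sG 0 = 12 := rfl
  have s1 : sG 1 = 20 := rfl
  have s2 : sG 2 = 28 := rfl
  have t0 : tG 0 = 0 := rfl
  have t1 : tG 1 = 83 := rfl
  have t2 : tG 2 = 114 := rfl
  have t3 : tG 3 = 57 := rfl
  norm_num [s0, s1, s2, t0, t1, t2, t3]
  ring

lemma sum_al {C : ℝ} {K n N : ℕ} (hN : 1 ≤ N) :
    ∑ i ∈ Finset.range (120 * N + 5), al C K n N (loc N i).1 (loc N i).2 ≤
      (120 * N + 5 : ℕ) * (Real.log C + K * Real.log n + n * PhiG) +
      ((120 * N + 5 : ℕ) : ℝ) ^ 2 * Real.log n - (9724 * N - 57) * (N * Real.log 2) := by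
  have h1 : ∀ i ∈ Finset.range (120 * N + 5), al C K n N (loc N i).1 (loc N i).2 ≤
      (Real.log C + K * Real.log n + n * PhiG) + 2 * (i : ℝ) * Real.log n -
      ta N (loc N i).1 (loc N i).2 := by
    intro i hi
    rw [Finset.mem_range] at hi
    obtain ⟨h2, h3⟩ := loc_spec hi
    exact al_le hN h3 h2
  have h2 := Finset.sum_le_sum h1
  rw [Finset.sum_sub_distrib, Finset.sum_add_distrib, Finset.sum_const, Finset.card_range,
    nsmul_eq_mul, sum_ta hN] at h2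
  have hl : 0 ≤ Real.log n := Real.log_natCast_nonneg n
  have h3 : ∑ i ∈ Finset.range (120 * N + 5), 2 * (i : ℝ) * Real.log n ≤
      ((120 * N + 5 : ℕ) : ℝ) ^ 2 * Real.log n := by
    have e1 : ∑ i ∈ Finset.range (120 * N + 5), 2 * (i : ℝ) * Real.log n =
        (2 * ∑ i ∈ Finset.range (120 * N + 5), (i : ℝ)) * Real.log n := by
      rw [← Finset.sum_mul, ← Finset.mul_sum]
    rw [e1, sum_k]
    apply mul_le_mul_of_nonneg_right _ hl
    have : (0 : ℝ) ≤ ((120 * N + 5 : ℕ) : ℝ) := by positivity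
    nlinarith
  linarith


lemma final_ev (c : ℝ) (K : ℕ) (ε : ℝ) (hε : 0 < ε) :
    ∀ᶠ n : ℕ in atTop, 5 * (n : ℝ) * (c + K * Real.log n) ≤ ε * (n : ℝ) ^ 2 := by
  have h1 : Tendsto (fun n : ℕ => Real.log (n : ℝ) / n) atTop (𝓝 0) := by
    have := Real.isLittleO_log_id_atTop.tendsto_div_nhds_zero
    exact this.comp tendsto_natCast_atTop_atTop
  have h2 : Tendsto (fun n : ℕ => c / (n : ℝ)) atTop (𝓝 0) := tendsto_const_div_atTop_nhds_zero_nat c
  have h3 : Tendsto (fun n : ℕ => 5 * (c / (n : ℝ) + K * (Real.log (n : ℝ) / n))) atTop (𝓝 0) := by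
    have := (h2.add (h1.const_mul (K : ℝ))).const_mul 5
    simpa using this
  have h4 := h3.eventually (gt_mem_nhds hε)
  filter_upwards [h4, eventually_gt_atTop 0] with n hn hn0
  have hn' : (0 : ℝ) < n := by exact_mod_cast hn0
  have e : 5 * (n : ℝ) * (c + K * Real.log n) = 5 * (c / (n : ℝ) + K * (Real.log (n : ℝ) / n)) * (n : ℝ) ^ 2 := by
    field_simp
  rw [e]
  exact mul_le_mul_of_nonneg_right hn.le (by positivity)

/-- `n ^ (10 n)` as an exponential -/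
lemma npow_exp {n : ℕ} (hn : 1 ≤ n) : (n : ℝ) ^ (10 * n) = Real.exp (10 * n * Real.log n) := by
  have h0 : (0 : ℝ) < n := by exact_mod_cast (by omega : 0 < n)
  have : (10 * n * Real.log n : ℝ) = ((10 * n : ℕ) : ℝ) * Real.log n := by push_cast; ring
  rw [this, Real.exp_nat_mul, Real.exp_log h0]

/-- the sizes -/
def AA (C : ℝ) (K n N i : ℕ) : ℝ :=
  Real.exp ((al C K n N (loc N i).1 (loc N i).2 - 10 * n * Real.log n) / 2)

lemma AA_sq {C : ℝ} {K n N i : ℕ} (hn : 1 ≤ n) :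
    AA C K n N i ^ 2 * (n : ℝ) ^ (10 * n) = Real.exp (al C K n N (loc N i).1 (loc N i).2) := by
  unfold AA
  rw [npow_exp hn, ← Real.exp_nat_mul, ← Real.exp_add]
  congr 1
  push_cast
  ring

/-- the rows, from `G1_main` and `G3_cert` -/
theorem rows_of (hG1 : ∃ (C : ℝ) (K : ℕ), 0 < C ∧ ∀ N σ : ℕ, 1 ≤ N → (σ = 1 ∨ σ = 3) → ∀ n : ℕ,
      n = 24 * N + 1 →
      ∀ y : ℝ, WL n σ y * (n : ℝ) ^ (10 * n) * Real.exp (-(2 * Real.pi * |y|)) * (1 + y ^ 2) ^ 6 *
        FXpG ((y / n) ^ 2) ^ N ≤ C * (n : ℝ) ^ K * Real.exp (n * PhiG))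
    (hG3 : ∀ (b : ℕ), b ≤ 3 → ∀ v : ℝ, 0 ≤ v →
      (2 : ℝ) ^ tG b * (∏ i ∈ Finset.range b, |((hG i : ℚ) : ℝ) - v| ^ (2 * sG i)) ≤ FXpG v)
    (σ : ℕ) (hσ : σ = 1 ∨ σ = 3) : ∃ (C : ℝ) (K : ℕ), 0 < C ∧ ∀ ε : ℝ, 0 < ε → ∀ᶠ N : ℕ in atTop,
    ∀ n : ℕ, n = 24 * N + 1 → ∃ (G : ℕ → ℚ[X]) (A : ℕ → ℝ),
    (∀ j < 5 * n, (G j).Monic ∧ (G j).natDegree = j ∧ 0 < A j ∧
      ∀ y : ℝ, WL n σ y * Real.exp (-(2 * Real.pi * |y|)) * ‖aeval (zc n σ y) (G j)‖ ^ 2 ≤
        A j ^ 2 * (1 + y ^ 2)⁻¹) ∧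
    A 0 ^ 2 * (n : ℝ) ^ (10 * n) ≤ C * (n : ℝ) ^ K * Real.exp (n * PhiG) ∧
    ∑ j ∈ Finset.range (5 * n), 2 * Real.log (A j) ≤
      -(25 * (n : ℝ) ^ 2 * Real.log n) + (5 * PhiG - 9724 / 576 * Real.log 2 + ε) * (n : ℝ) ^ 2 := by
  obtain ⟨C, K, hC, h⟩ := hG1
  have hH : Hyp σ C K := fun N hN n hn y => h N σ hN hσ n hn y
  refine ⟨C, K, hC, fun ε hε => ?_⟩
  set c : ℝ := |Real.log C| + 10 with hc
  have hev := final_ev c K ε hε
  have htd : Tendsto (fun N : ℕ => 24 * N + 1) atTop atTop := by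
    apply tendsto_atTop_mono (fun N => _) tendsto_id
    intro N
    show N ≤ 24 * N + 1
    omega
  filter_upwards [htd.eventually hev, eventually_ge_atTop 1] with N hN hN1 n hn
  have hm : 5 * n = 120 * N + 5 := by omega
  have hn1 : 1 ≤ n := by omega
  have hn0 : (0 : ℝ) < n := by exact_mod_cast hn1
  rw [← hn] at hN
  refine ⟨fun i => PA n σ N (loc N i).1 (loc N i).2, fun i => AA C K n N i, ?_, ?_, ?_⟩
  · intro j hj
    rw [hm] at hj
    obtain ⟨e1, e2⟩ := loc_spec hj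
    refine ⟨PA_monic _ _ _ _ _, ?_, Real.exp_pos _, fun y => ?_⟩
    · simp only
      rw [PA_deg]
      exact e1
    · simp only
      have hb := PA_bound hG3 hC hH hN1 hn e2 y
      have hy : (0 : ℝ) < 1 + y ^ 2 := by positivity
      have hp : (0 : ℝ) < (n : ℝ) ^ (10 * n) := by positivity
      rw [← div_eq_mul_inv, le_div_iff₀ hy]
      refine le_of_mul_le_mul_right ?_ hp
      rw [AA_sq hn1]
      refine le_trans (le_of_eq ?_) hb
      unfold NG
      ring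
  · simp only
    rw [AA_sq hn1]
    have e0 : loc N 0 = (0, 0) := by
      unfold loc
      rw [if_pos (by omega)]
    rw [e0]
    have e1 : al C K n N 0 0 = Real.log C + K * Real.log n + n * PhiG := by
      unfold al la
      rw [if_neg (by norm_num), ho0]
      have t0 : tG 0 = 0 := rfl
      rw [t0]
      push_cast
      simp
    show Real.exp (al C K n N 0 0) ≤ _
    rw [e1, Real.exp_add, Real.exp_add, Real.exp_log hC, Real.exp_nat_mul, Real.exp_log hn0]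
  · have hlogA : ∀ j ∈ Finset.range (5 * n), 2 * Real.log (AA C K n N j) =
        al C K n N (loc N j).1 (loc N j).2 - 10 * n * Real.log n := by
      intro j _
      unfold AA
      rw [Real.log_exp]
      ring
    rw [Finset.sum_congr rfl hlogA, Finset.sum_sub_distrib, Finset.sum_const, Finset.card_range,
      nsmul_eq_mul, hm]
    have hsum := sum_al (C := C) (K := K) (n := n) (N := N) hN1
    have hl : 0 ≤ Real.log n := Real.log_natCast_nonneg n
    have hl2 : 0 ≤ Real.log 2 := Real.log_nonneg (by norm_num)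
    have hl2' : Real.log 2 ≤ 1 := by
      have := Real.log_two_lt_d9
      linarith
    have hmn : ((120 * N + 5 : ℕ) : ℝ) = 5 * n := by
      rw [← hm]; push_cast; ring
    have hNn : (24 : ℝ) * N = n - 1 := by
      have h' : (n : ℝ) = 24 * N + 1 := by rw [hn]; push_cast; ring
      linarith
    rw [hmn] at hsum ⊢
    have hn1' : (1 : ℝ) ≤ n := by exact_mod_cast hn1
    have p4 : -((9724 * (N : ℝ) - 57) * (N * Real.log 2)) ≤
        - (9724 / 576 * Real.log 2) * (n : ℝ) ^ 2 + 50 * (n : ℝ) := by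
      have hNe : (N : ℝ) = (n - 1) / 24 := by linarith
      rw [hNe]
      have e : - (9724 / 576 * Real.log 2) * (n : ℝ) ^ 2 + 50 * (n : ℝ) +
          (9724 * (((n : ℝ) - 1) / 24) - 57) * (((n : ℝ) - 1) / 24 * Real.log 2) =
          50 * (n : ℝ) - ((9724 / 288 + 57 / 24) * (n : ℝ) - (9724 / 576 + 57 / 24)) * Real.log 2 := by
        ring
      have h1 : 0 ≤ 50 * (n : ℝ) - ((9724 / 288 + 57 / 24) * (n : ℝ) - (9724 / 576 + 57 / 24)) * Real.log 2 := by
        have h2 : ((9724 / 288 + 57 / 24) * (n : ℝ) - (9724 / 576 + 57 / 24)) * Real.log 2 ≤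
            ((9724 / 288 + 57 / 24) * (n : ℝ)) * 1 := by
          apply mul_le_mul _ hl2' hl2 (by positivity)
          linarith
        linarith
      linarith
    have p6 : 5 * (n : ℝ) * Real.log C ≤ 5 * n * |Real.log C| :=
      mul_le_mul_of_nonneg_left (le_abs_self _) (by positivity)
    rw [hc] at hN
    have e2 : 5 * (n : ℝ) * (|Real.log C| + 10 + (K : ℝ) * Real.log n) =
        5 * n * |Real.log C| + 50 * n + 5 * n * ((K : ℝ) * Real.log n) := by ring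
    rw [e2] at hN
    have e3 : -(25 * (n : ℝ) ^ 2 * Real.log n) + (5 * PhiG - 9724 / 576 * Real.log 2 + ε) * (n : ℝ) ^ 2 =
        -(25 * (n : ℝ) ^ 2 * Real.log n) + 5 * PhiG * (n : ℝ) ^ 2 -
          9724 / 576 * Real.log 2 * (n : ℝ) ^ 2 + ε * (n : ℝ) ^ 2 := by ring
    rw [e3]
    have e4 : 5 * (n : ℝ) * (Real.log C + K * Real.log n + n * PhiG) + (5 * (n : ℝ)) ^ 2 * Real.log n -
        5 * (n : ℝ) * (10 * n * Real.log n) =
        5 * (n : ℝ) * Real.log C + 5 * n * ((K : ℝ) * Real.log n) +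
        5 * PhiG * (n : ℝ) ^ 2 - 25 * (n : ℝ) ^ 2 * Real.log n := by ring
    linarith only [hsum, p4, p6, hN, e4]

end G4

end

end Pool.Agent.QG.LG
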