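import Pool.Agent.H383.QG.GDefs

/-!
# Numerical value of the exponential rate
-/

namespace Pool.Agent.QG.LG

noncomputable section

/-- true value `-157.303` -/
theorem G5_num : 5 * PhiG - 9724 / 576 * Real.log 2 ≤ -1573 / 10 := by
  unfold PhiG
  rw [Real.log_ten_eq]
  have h2 := Real.log_two_gt_d9
  have h2' := Real.log_two_lt_d9
  have h5 := Real.log_five_gt_d9
  have h5' := Real.log_five_lt_d9
  linarith

end

end Pool.Agent.QG.LG
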