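import Pool.Agent.H383.QG.G1main
import Pool.Agent.H383.QG.G3
import Pool.Agent.H383.QG.G4

/-! Line part of the archimedean bound for `8G ± 5π²/6`: the rows. -/

open Polynomial Filter Topology

namespace Pool.Agent.QG.LG

/-- the row polynomials `G j` and their sizes `A j` -/
theorem G4_rows (σ : ℕ) (hσ : σ = 1 ∨ σ = 3) : ∃ (C : ℝ) (K : ℕ), 0 < C ∧ ∀ ε : ℝ, 0 < ε → ∀ᶠ N : ℕ in atTop,
    ∀ n : ℕ, n = 24 * N + 1 → ∃ (G : ℕ → ℚ[X]) (A : ℕ → ℝ),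
    (∀ j < 5 * n, (G j).Monic ∧ (G j).natDegree = j ∧ 0 < A j ∧
      ∀ y : ℝ, WL n σ y * Real.exp (-(2 * Real.pi * |y|)) * ‖aeval (zc n σ y) (G j)‖ ^ 2 ≤
        A j ^ 2 * (1 + y ^ 2)⁻¹) ∧
    A 0 ^ 2 * (n : ℝ) ^ (10 * n) ≤ C * (n : ℝ) ^ K * Real.exp (n * PhiG) ∧
    ∑ j ∈ Finset.range (5 * n), 2 * Real.log (A j) ≤
      -(25 * (n : ℝ) ^ 2 * Real.log n) + (5 * PhiG - 9724 / 576 * Real.log 2 + ε) * (n : ℝ) ^ 2 :=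
  G4.rows_of G1_main (fun b hb v hv => G3_cert b hb v hv) σ hσ

end Pool.Agent.QG.LG
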