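import Pool.Agent.H383.QG.GDefs

/-! STUBS of the line part of the archimedean bound for `8G ± 5π²/6`. Never import this file in a finished module.
All these are adaptations of the finished files `Pool/Agent/H383/Z34/{G1A,G1Z,G1M,G1Mfin,G2,G4,G5}.lean`. -/

open Polynomial Filter Topology

namespace Pool.Agent.QG.LG

noncomputable section

/-! ### G1: the size of `WL` on the line -/

theorem G1_zero : ∃ (C : ℝ) (K : ℕ), 0 < C ∧ ∀ n σ : ℕ, 1 ≤ n → (σ = 1 ∨ σ = 3) →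
    WL n σ 0 * (n : ℝ) ^ (10 * n) ≤ C * (n : ℝ) ^ K * Real.exp (n * PhiG) := by
  sorry

/-- comparison of `WL` with the product over all half integers; the distances `i+1-δ` (zeros of `U`, `i < 2n`),
`i+δ` (zeros of `Z`), `2n-δ+k` (poles) with `δ = (4-σ)/8 ≤ 1/2` are compared with half integers -/
theorem G1_ratio {n σ : ℕ} (hn : 1 ≤ n) (hσ : σ = 1 ∨ σ = 3) (y : ℝ) (M : ℕ) (hM : 10 * n + 1 ≤ M) :
    (WL n σ y * Real.exp (-(2 * Real.pi * |y|))) ^ 2 *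
      ((∏ m ∈ Finset.Ioc 0 (2 * n), (1 + y ^ 2 / ((m : ℝ) - 1 / 2) ^ 2)) *
       (∏ m ∈ Finset.Ioc (2 * n) (3 * n), (1 + y ^ 2 / ((m : ℝ) - 1 / 2) ^ 2) ^ 6) *
       (∏ m ∈ Finset.Ioc (3 * n) (10 * n), (1 + y ^ 2 / ((m : ℝ) - 1 / 2) ^ 2) ^ 6) *
       (∏ m ∈ Finset.Ioc (10 * n) M, (1 + y ^ 2 / ((m : ℝ) - 1 / 2) ^ 2) ^ 4)) ≤
      WL n σ 0 ^ 2 * (64 * (1 + y ^ 2)) ^ 12 := by
  sorry

theorem G1_main : ∃ (C : ℝ) (K : ℕ), 0 < C ∧ ∀ N σ : ℕ, 1 ≤ N → (σ = 1 ∨ σ = 3) → ∀ n : ℕ, n = 24 * N + 1 →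
    ∀ y : ℝ, WL n σ y * (n : ℝ) ^ (10 * n) * Real.exp (-(2 * Real.pi * |y|)) * (1 + y ^ 2) ^ 6 *
      FXpG ((y / n) ^ 2) ^ N ≤ C * (n : ℝ) ^ K * Real.exp (n * PhiG) := by
  sorry

/-! ### G2: the node polynomials -/

theorem G2_qG {n : ℕ} (hn : 1 ≤ n) (σ : ℕ) (y : ℝ) (h : ℚ) :
    ‖aeval (zc n σ y) (qG n σ h)‖ = (n : ℝ) ^ 2 * |(h : ℝ) - (y / n) ^ 2| := by
  sorry

/-! ### G3: the certificate -/

theorem G3_cert (b : ℕ) (hb : b ≤ 3) (v : ℝ) (hv : 0 ≤ v) :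
    (2 : ℝ) ^ tG b * (∏ i ∈ Finset.range b, |((hG i : ℚ) : ℝ) - v| ^ (2 * sG i)) ≤ FXpG v := by
  sorry

/-! ### G4: the rows -/

/-- the row polynomials `G j` and their sizes `A j` -/
theorem G4_rows (σ : ℕ) (hσ : σ = 1 ∨ σ = 3) : ∃ (C : ℝ) (K : ℕ), 0 < C ∧ ∀ ε : ℝ, 0 < ε → ∀ᶠ N : ℕ in atTop,
    ∀ n : ℕ, n = 24 * N + 1 → ∃ (G : ℕ → ℚ[X]) (A : ℕ → ℝ),
    (∀ j < 5 * n, (G j).Monic ∧ (G j).natDegree = j ∧ 0 < A j ∧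
      ∀ y : ℝ, WL n σ y * Real.exp (-(2 * Real.pi * |y|)) * ‖aeval (zc n σ y) (G j)‖ ^ 2 ≤
        A j ^ 2 * (1 + y ^ 2)⁻¹) ∧
    A 0 ^ 2 * (n : ℝ) ^ (10 * n) ≤ C * (n : ℝ) ^ K * Real.exp (n * PhiG) ∧
    ∑ j ∈ Finset.range (5 * n), 2 * Real.log (A j) ≤
      -(25 * (n : ℝ) ^ 2 * Real.log n) + (5 * PhiG - 9724 / 576 * Real.log 2 + ε) * (n : ℝ) ^ 2 := by
  sorry

/-- true value `-157.303` -/
theorem G5_num : 5 * PhiG - 9724 / 576 * Real.log 2 ≤ -1573 / 10 := by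
  sorry

end

end Pool.Agent.QG.LG
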